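import Pool.Agent.Helper57.CD.Def
import Pool.Agent.Helper57.NT.AxL
import Pool.Agent.Helper57.NT.Soft

/-!
Project NT (helper57), part 12 (helper42): leaves over a curve are not algebraic, the derivatives
of `x_2 - log A` along the leaves do not vanish.
-/

set_option autoImplicit false

namespace Pool.Agent.Helper57.CD

open MvPolynomial Filter Topology Metric Pool.Agent.Q72.EG Pool.Agent.Helper57.NT

namespace AxP

variable {E : Type} [Field E] [Algebra ℂ E] {ι : Type}

/-- a root of a minimal relation in the base -/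
theorem root_in_base {τ : Type} {ζ : τ → E} {w : E} {A : Polynomial (MvPolynomial τ ℂ)}
    (hA : Pool.Agent.Q166.EG.Mn ζ w A) (u : MvPolynomial τ ℂ)
    (h : Pool.Agent.Q166.EG.ph ζ (A.eval u) = 0) : w = Pool.Agent.Q166.EG.ph ζ u := by
  classical
  by_contra hne
  set B := A /ₘ (Polynomial.X - Polynomial.C u) with hB
  have hm : (Polynomial.X - Polynomial.C u).Monic := Polynomial.monic_X_sub_C u
  have h1 : Polynomial.C (A.eval u) + (Polynomial.X - Polynomial.C u) * B = A := by
    have := Polynomial.modByMonic_add_div A (Polynomial.X - Polynomial.C u)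
    rwa [Polynomial.modByMonic_X_sub_C_eq_C_eval] at this
  have hd : B.natDegree < A.natDegree := by
    rw [hB, Polynomial.natDegree_divByMonic _ hm, Polynomial.natDegree_X_sub_C]
    have := hA.deg
    omega
  have h2 := hA.rel
  rw [← h1, Pool.Agent.Q166.EG.ev, Polynomial.eval₂_add, Polynomial.eval₂_C, h, zero_add,
    Polynomial.eval₂_mul, Polynomial.eval₂_sub, Polynomial.eval₂_X, Polynomial.eval₂_C] at h2
  have h3 := hA.min B hd ((mul_eq_zero.1 h2).resolve_left (sub_ne_zero.2 hne))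
  have h4 : A.map (Pool.Agent.Q166.EG.ph ζ) = 0 := by
    rw [← h1, Polynomial.map_add, Polynomial.map_C, h, Polynomial.map_mul, h3, mul_zero,
      Polynomial.C_0, zero_add]
  apply hA.lead
  have := congrArg (fun q => Polynomial.coeff q A.natDegree) h4
  simpa [Polynomial.coeff_map] using this

/-- relations at points -/
theorem rel_pt {ζ : Fin 1 → E} {f : ι → E} {P : Fin 1 ⊕ ι → ℂ} (hP : P ∈ Pt (Sum.elim ζ f)) {i : ι}
    {A : Polynomial (MvPolynomial (Fin 1) ℂ)} (hA : Pool.Agent.Q166.EG.ev ζ (f i) A = 0) :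
    (A.map (eval (fun _ : Fin 1 => P (Sum.inl 0)))).eval (P (Sum.inr i)) = 0 := by
  have e0 : (fun _ : Fin 1 => P (Sum.inl 0)) = P ∘ Sum.inl := by
    funext l
    have : l = 0 := Subsingleton.elim _ _
    subst this
    rfl
  rw [e0]
  have h3 := hP (∑ j ∈ Finset.range (A.natDegree + 1),
    rename Sum.inl (A.coeff j) * X (Sum.inr i) ^ j) (by
      rw [map_sum]
      have h4 := hA
      rw [Pool.Agent.Q166.EG.ev, Polynomial.eval₂_eq_sum_range] at h4
      rw [← h4]
      refine Finset.sum_congr rfl fun j _ => ?_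
      rw [map_mul, map_pow, aeval_X, aeval_rename]
      rfl)
  rw [map_sum] at h3
  rw [Polynomial.eval_map, Polynomial.eval₂_eq_sum_range, ← h3]
  refine Finset.sum_congr rfl fun j _ => ?_
  rw [map_mul, map_pow, eval_X, eval_rename]

/-- `x_1 = T + 2 π i s` -/
noncomputable def th : MvPolynomial (Fin 1) ℂ →+* MvPolynomial (Fin 2) ℂ :=
  (aeval (fun _ : Fin 1 => (X 1 + C (2 * Real.pi * Complex.I) * X 0 : MvPolynomial (Fin 2) ℂ)) :
    MvPolynomial (Fin 1) ℂ →ₐ[ℂ] MvPolynomial (Fin 2) ℂ).toRingHom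

theorem eval_comp_th (a b : ℂ) : (eval ![a, b] : MvPolynomial (Fin 2) ℂ →+* ℂ).comp th =
    eval (fun _ : Fin 1 => b + 2 * Real.pi * Complex.I * a) := by
  ext i
  · simp [th]
  · simp [th]

theorem eval_th (a b : ℂ) (g : MvPolynomial (Fin 1) ℂ) :
    eval ![a, b] (th g) = eval (fun _ : Fin 1 => b + 2 * Real.pi * Complex.I * a) g := by
  rw [← eval_comp_th]; rfl

theorem relT_th {V : Set ℂ} {T g : ℂ → ℂ} (A : Polynomial (MvPolynomial (Fin 1) ℂ))
    (h1 : ∀ x ∈ V, eval (fun _ : Fin 1 => T x + 2 * Real.pi * Complex.I * x) A.leadingCoeff ≠ 0)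
    (h2 : ∀ x ∈ V, (A.map (eval (fun _ : Fin 1 => T x + 2 * Real.pi * Complex.I * x))).eval
      (g x) = 0) : RelT V T g := by
  refine ⟨A.map th, fun x hx => ?_, fun x hx => ?_⟩
  · have h3 : th A.leadingCoeff ≠ 0 := by
      intro h
      apply h1 x hx
      rw [← eval_th, h, map_zero]
    rw [Polynomial.leadingCoeff_map_of_leadingCoeff_ne_zero _ h3, eval_th]
    exact h1 x hx
  · rw [Polynomial.map_map, eval_comp_th]
    exact h2 x hx

/-- polynomials in `s` -/
theorem eval_ps (Q : Polynomial ℂ) (a b : ℂ) :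
    eval ![a, b] (Polynomial.aeval (X 0 : MvPolynomial (Fin 2) ℂ) Q) = Q.eval a := by
  rw [Polynomial.aeval_def, Polynomial.hom_eval₂]
  have : (eval ![a, b] : MvPolynomial (Fin 2) ℂ →+* ℂ).comp
      (algebraMap ℂ (MvPolynomial (Fin 2) ℂ)) = RingHom.id ℂ := by
    ext z
    show eval ![a, b] (C z) = z
    rw [eval_C]
  rw [this, eval_X]
  rfl

theorem shift {V : Set ℂ} {T g : ℂ → ℂ} (h : RelT V T g) (Q : Polynomial ℂ) :
    RelT V T fun x => g x - Q.eval x := by
  obtain ⟨A, h1, h2⟩ := h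
  refine ⟨A.comp (Polynomial.X + Polynomial.C (Polynomial.aeval (X 0 : MvPolynomial (Fin 2) ℂ) Q)),
    fun x hx => ?_, fun x hx => ?_⟩
  · rw [Polynomial.leadingCoeff_comp (by rw [Polynomial.natDegree_X_add_C]; norm_num),
      Polynomial.leadingCoeff_X_add_C, one_pow, mul_one]
    exact h1 x hx
  · rw [Polynomial.map_comp, Polynomial.eval_comp]
    have : (Polynomial.map (eval ![x, T x]) (Polynomial.X +
        Polynomial.C (Polynomial.aeval (X 0 : MvPolynomial (Fin 2) ℂ) Q))).eval
          (g x - Q.eval x) = g x := by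
      rw [Polynomial.map_add, Polynomial.map_X, Polynomial.map_C, Polynomial.eval_add,
        Polynomial.eval_X, Polynomial.eval_C, eval_ps]
      ring
    rw [this]
    exact h2 x hx

theorem eval_eval {σ : Type} (t : σ → ℂ) (A : Polynomial (MvPolynomial σ ℂ)) (u : MvPolynomial σ ℂ) :
    eval t (A.eval u) = (A.map (eval t)).eval (eval t u) := by
  rw [Polynomial.eval_map, Polynomial.eval₂_at_apply]

/-- antiderivatives of polynomials -/
theorem exists_prim (Q : Polynomial ℂ) : ∃ P : Polynomial ℂ, Polynomial.derivative P = Q := by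
  induction Q using Polynomial.induction_on' with
  | add p q hp hq =>
    obtain ⟨P, hP⟩ := hp
    obtain ⟨R, hR⟩ := hq
    exact ⟨P + R, by rw [Polynomial.derivative_add, hP, hR]⟩
  | monomial n a =>
    refine ⟨Polynomial.monomial (n + 1) (a / (n + 1)), ?_⟩
    rw [Polynomial.derivative_monomial]
    have : ((n : ℂ) + 1) ≠ 0 := Nat.cast_add_one_ne_zero n
    congr 1
    push_cast
    field_simp

/-- functions with a vanishing derivative of order `n` are polynomials -/
theorem poly_of_deriv {r : ℝ} (n : ℕ) : ∀ (g : ℂ → ℂ) (F : ℕ → ℂ → ℂ),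
    (∀ s ∈ ball (0 : ℂ) r, HasDerivAt g (F 0 s) s) →
    (∀ k, ∀ s ∈ ball (0 : ℂ) r, HasDerivAt (F k) (F (k + 1) s) s) →
    (∀ s ∈ ball (0 : ℂ) r, F n s = 0) →
    ∃ Q : Polynomial ℂ, ∀ s ∈ ball (0 : ℂ) r, g s = Q.eval s := by
  have step : ∀ (g h : ℂ → ℂ), (∀ s ∈ ball (0 : ℂ) r, HasDerivAt g (h s) s) →
      (∃ Q : Polynomial ℂ, ∀ s ∈ ball (0 : ℂ) r, h s = Q.eval s) →
      ∃ Q : Polynomial ℂ, ∀ s ∈ ball (0 : ℂ) r, g s = Q.eval s := by
    rintro g h hg ⟨Q, hQ⟩
    obtain ⟨P, hP⟩ := exists_prim Q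
    rcases (ball (0 : ℂ) r).eq_empty_or_nonempty with he | ⟨z, hz⟩
    · exact ⟨0, fun s hs => by rw [he] at hs; exact absurd hs (Set.notMem_empty _)⟩
    · have hd : ∀ s ∈ ball (0 : ℂ) r, HasDerivAt (fun s => g s - P.eval s) 0 s := by
        intro s hs
        have := (hg s hs).sub (P.hasDerivAt s)
        rw [hP, hQ s hs, sub_self] at this
        exact this
      have hconst : ∀ s ∈ ball (0 : ℂ) r, g s - P.eval s = g z - P.eval z := by
        intro s hs
        exact isOpen_ball.is_const_of_deriv_eq_zero (f := fun s => g s - P.eval s)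
          (convex_ball (0 : ℂ) r).isPreconnected
          (fun w hw => (hd w hw).differentiableAt.differentiableWithinAt)
          (fun w hw => (hd w hw).deriv) hs hz
      refine ⟨P + Polynomial.C (g z - P.eval z), fun s hs => ?_⟩
      rw [Polynomial.eval_add, Polynomial.eval_C, ← hconst s hs]
      ring
  induction n with
  | zero =>
    intro g F h0 _ hn
    exact step g (F 0) h0 ⟨0, fun s hs => by rw [hn s hs, Polynomial.eval_zero]⟩
  | succ n ih =>
    intro g F h0 hF hn
    exact step g (F 0) h0 (ih (F 0) (fun k => F (k + 1)) (fun s hs => hF 0 s hs)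
      (fun k s hs => hF (k + 1) s hs) hn)

/-- a polynomial of one variable which vanishes everywhere -/
theorem zero_of_fun (g : MvPolynomial (Fin 1) ℂ) (h : ∀ x : ℂ, eval (fun _ : Fin 1 => x) g = 0) :
    g = 0 := by
  apply MvPolynomial.funext
  intro t
  have e : t = fun _ => t 0 := by
    funext l
    have : l = 0 := Subsingleton.elim _ _
    subst this
    rfl
  rw [e, h, map_zero]

/-- a polynomial which vanishes on an affine image of a ball -/
theorem zero_of_ball (g : MvPolynomial (Fin 1) ℂ) (t0 : ℂ) {κ : ℂ} (hκ : κ ≠ 0) {r : ℝ} (hr : 0 < r)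
    (h : ∀ s ∈ ball (0 : ℂ) r, eval (fun _ : Fin 1 => t0 + κ * s) g = 0) : g = 0 := by
  set su : MvPolynomial (Fin 1) ℂ →+* Polynomial ℂ :=
    (aeval (fun _ : Fin 1 => (Polynomial.C t0 + Polynomial.C κ * Polynomial.X : Polynomial ℂ)) :
      MvPolynomial (Fin 1) ℂ →ₐ[ℂ] Polynomial ℂ).toRingHom with hsu
  have hsue : ∀ s : ℂ, (Polynomial.evalRingHom s).comp su = eval (fun _ : Fin 1 => t0 + κ * s) := by
    intro s
    ext i
    · simp [hsu]
    · simp [hsu]
  have hz : su g = 0 := by
    apply Polynomial.eq_zero_of_infinite_isRoot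
    have hinf : (ball (0 : ℂ) r).Infinite :=
      infinite_of_mem_nhds (0 : ℂ) (ball_mem_nhds _ hr)
    refine hinf.mono fun s hs => ?_
    have h1 := h s hs
    rw [← hsue s] at h1
    exact h1
  apply zero_of_fun
  intro x
  have h2 := congrArg (fun φ : MvPolynomial (Fin 1) ℂ →+* ℂ => φ g) (hsue ((x - t0) / κ))
  simp only [RingHom.comp_apply, hz, map_zero] at h2
  have h3 : t0 + κ * ((x - t0) / κ) = x := by field_simp; ring
  rw [h3] at h2
  exact h2.symm

end AxP

open AxP

theorem ax (hsize : S_size) : S_ax := by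
  classical
  intro E _ _ ι _ ζ f hind hf k1 p L i2 j hj hc hqc n h0
  set ξ : Fin 1 ⊕ ι → E := Sum.elim ζ f with hξ
  obtain ⟨A1, hA1⟩ := Pool.Agent.Q166.EG.mn_alg (hf k1)
  obtain ⟨A2, hA2⟩ := Pool.Agent.Q166.EG.mn_alg (hf i2)
  obtain ⟨A3, hA3⟩ := Pool.Agent.Q166.EG.mn_alg (hf j)
  have key : ∀ a : MvPolynomial (Fin 1 ⊕ ι) ℂ, aeval ξ a ≠ 0 → ∀ᶠ m : ℕ in atTop,
      ∀ s ∈ ball (0 : ℂ) ((m : ℝ) / 256), eval (p m s) a ≠ 0 := by
    intro a ha
    obtain ⟨_, _, h1⟩ := hsize ζ f hf a ha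
    filter_upwards [h1, L.good] with m h1 hg s hs
    exact (h1 _ (hg.pt s hs) (hg.rg s hs)).1
  have hlead : ∀ {i : ι} {A : Polynomial (MvPolynomial (Fin 1) ℂ)},
      Pool.Agent.Q166.EG.Mn ζ (f i) A → ∀ᶠ m : ℕ in atTop,
      ∀ s ∈ ball (0 : ℂ) ((m : ℝ) / 256),
        eval (fun _ : Fin 1 => p m s (Sum.inl 0)) A.leadingCoeff ≠ 0 := by
    intro i A hA
    have h1 := key (rename Sum.inl A.leadingCoeff) (by
      rw [aeval_rename]
      exact hA.lead)
    filter_upwards [h1] with m h1 s hs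
    have h2 := h1 s hs
    rw [eval_rename] at h2
    have e0 : (fun _ : Fin 1 => p m s (Sum.inl 0)) = p m s ∘ Sum.inl := by
      funext l
      have : l = 0 := Subsingleton.elim _ _
      subst this
      rfl
    rw [e0]
    exact h2
  obtain ⟨m, hm⟩ := (L.good.and (L.dif.and ((key _ L.hB).and ((key (X (Sum.inr j)) (by
    rw [aeval_X]; exact hj)).and ((hlead hA1).and ((hlead hA2).and ((hlead hA3).and
      (eventually_gt_atTop 0)))))))).exists
  obtain ⟨hg, hdif, hB, hjn, hl1, hl2, hl3, hm0⟩ := hm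
  set V : Set ℂ := ball (0 : ℂ) ((m : ℝ) / 256) with hV
  have hr : (0 : ℝ) < (m : ℝ) / 256 := by
    have : (0 : ℝ) < m := by exact_mod_cast hm0
    positivity
  have hVc : IsPreconnected V := (convex_ball (0 : ℂ) ((m : ℝ) / 256)).isPreconnected
  have hVo : IsOpen V := isOpen_ball
  have hVn : V.Nonempty := ⟨0, mem_ball_self hr⟩
  simp only [eval_X] at hjn
  -- the logarithm of `A`
  obtain ⟨l, hld, hle⟩ := HT.log_conv isOpen_ball (convex_ball (0 : ℂ) ((m : ℝ) / 256)) hVn
    (hg.dif (Sum.inr j)) (fun s hs => hjn s hs)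
  -- `x_2 - log A` is a polynomial
  have hwn : ∀ k, ∀ s ∈ V, eval (p m s) (uw L i2 j k).2 ≠ 0 := by
    intro k
    induction k with
    | zero =>
      intro s hs
      show eval (p m s) (L.B * X (Sum.inr j)) ≠ 0
      rw [map_mul, eval_X]
      exact mul_ne_zero (hB s hs) (hjn s hs)
    | succ k ih =>
      intro s hs
      show eval (p m s) (L.B * (uw L i2 j k).2 ^ 2) ≠ 0
      rw [map_mul, map_pow]
      exact mul_ne_zero (hB s hs) (pow_ne_zero _ (ih s hs))
  obtain ⟨Q, hQ⟩ := poly_of_deriv (r := (m : ℝ) / 256) n (fun s => p m s (Sum.inr i2) - l s)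
    (fun k s => eval (p m s) (uw L i2 j k).1 / eval (p m s) (uw L i2 j k).2) (by
      intro s hs
      have e1 := hdif s hs (Sum.inr i2)
      have e2 := hdif s hs (Sum.inr j)
      have e3 : HasDerivAt l (deriv l s) s :=
        ((hld s hs).differentiableAt (isOpen_ball.mem_nhds hs)).hasDerivAt
      have e4 := e3.cexp
      have e5 : (fun s => Complex.exp (l s)) =ᶠ[𝓝 s] fun s => p m s (Sum.inr j) := by
        filter_upwards [isOpen_ball.mem_nhds hs] with z hz
        exact hle z hz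
      have e6 := (e4.congr_of_eventuallyEq e5.symm).unique e2
      rw [hle s hs] at e6
      refine (e1.sub e3).congr_deriv ?_
      have hb := hB s hs
      have hjs := hjn s hs
      show _ = eval (p m s) (L.A (Sum.inr i2) * X (Sum.inr j) - L.A (Sum.inr j)) /
        eval (p m s) (L.B * X (Sum.inr j))
      rw [map_sub, map_mul, map_mul, eval_X]
      field_simp
      field_simp at e6
      linear_combination -e6) (by
      intro k s hs
      have e1 := (hasDeriv_eval (hdif s hs) (uw L i2 j k).1).fun_div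
        (hasDeriv_eval (hdif s hs) (uw L i2 j k).2) (hwn k s hs)
      refine e1.congr_deriv ?_
      have hb := hB s hs
      have hw := hwn k s hs
      show _ = eval (p m s) (DD L.A (uw L i2 j k).1 * (uw L i2 j k).2 -
        (uw L i2 j k).1 * DD L.A (uw L i2 j k).2) / eval (p m s) (L.B * (uw L i2 j k).2 ^ 2)
      rw [map_sub, map_mul, map_mul, map_mul, map_pow]
      field_simp) (by
      intro s hs
      show eval (p m s) (uw L i2 j n).1 / eval (p m s) (uw L i2 j n).2 = 0
      rw [hg.pt s hs _ h0, zero_div])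
  -- `T`
  set T : ℂ → ℂ := fun s => p m s (Sum.inl 0) - 2 * Real.pi * Complex.I * s with hT
  have hTx : ∀ s, T s + 2 * Real.pi * Complex.I * s = p m s (Sum.inl 0) := by
    intro s; rw [hT]; ring
  have hTe : ∀ s ∈ V, Complex.exp (T s) = p m s (Sum.inr k1) := by
    intro s hs
    rw [hT]
    simp only
    rw [Complex.exp_sub, hg.ex s hs]
    field_simp
  have hTa : AnalyticOnNhd ℂ T V := by
    refine DifferentiableOn.analyticOnNhd ?_ hVo
    exact (hg.dif (Sum.inl 0)).sub (by fun_prop)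
  have hWa : AnalyticOnNhd ℂ l V := DifferentiableOn.analyticOnNhd hld hVo
  have rT' : RelT V T fun s => Complex.exp (T s) := by
    refine relT_th A1 (fun s hs => ?_) (fun s hs => ?_)
    · rw [hTx]; exact hl1 s hs
    · rw [hTx, hTe s hs]
      exact rel_pt (hg.pt s hs) hA1.rel
  -- `T` is not constant
  have hκ : (2 * Real.pi * Complex.I : ℂ) ≠ 0 := Complex.two_pi_I_ne_zero
  have hTn : ¬ ∃ c, ∀ s ∈ V, T s = c := by
    rintro ⟨t0, ht0⟩
    have hg0 : A1.eval (C (Complex.exp t0)) = 0 := by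
      apply zero_of_ball _ t0 hκ hr
      intro s hs
      have h1 := rel_pt (hg.pt s hs) hA1.rel
      rw [← hTe s hs, ← hTx s, ht0 s hs] at h1
      rw [← h1, eval_eval, eval_C]
    exact hc (Complex.exp t0) (by
      have := root_in_base hA1 (C (Complex.exp t0)) (by rw [hg0, map_zero])
      rw [this, Pool.Agent.Q166.EG.ph_eq, aeval_C])
  -- `W = log A`
  have rW : RelT V T l := by
    have h1 : RelT V T fun s => p m s (Sum.inr i2) := by
      refine relT_th A2 (fun s hs => ?_) (fun s hs => ?_)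
      · rw [hTx]; exact hl2 s hs
      · rw [hTx]
        exact rel_pt (hg.pt s hs) hA2.rel
    obtain ⟨A, h2, h3⟩ := shift h1 Q
    refine ⟨A, h2, fun s hs => ?_⟩
    have e : l s = p m s (Sum.inr i2) - Q.eval s := by
      rw [← hQ s hs]; ring
    rw [e]
    exact h3 s hs
  have rW' : RelT V T fun s => Complex.exp (l s) := by
    refine relT_th A3 (fun s hs => ?_) (fun s hs => ?_)
    · rw [hTx]; exact hl3 s hs
    · rw [hTx, hle s hs]
      exact rel_pt (hg.pt s hs) hA3.rel
  obtain ⟨q, hq0, c, hqc'⟩ := ax_two hVc hVo hVn hTa hWa rW rT' rW'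
  have hq1 : q 1 ≠ 0 := by
    intro h1
    apply hTn
    have hq00 : q 0 ≠ 0 := by
      intro h
      apply hq0
      funext i
      fin_cases i
      · exact h
      · exact h1
    have hq00' : ((q 0 : ℚ) : ℂ) ≠ 0 := by exact_mod_cast hq00
    refine ⟨c / ((q 0 : ℚ) : ℂ), fun s hs => ?_⟩
    have := hqc' s hs
    rw [h1, Rat.cast_zero, zero_mul, add_zero] at this
    rw [← this]
    field_simp
  have hq1' : ((q 1 : ℚ) : ℂ) ≠ 0 := by exact_mod_cast hq1
  -- `x_2 = Q1 + r x_1` on the leaf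
  set r : ℂ := ((-(q 0) / q 1 : ℚ) : ℂ) with hrdef
  have hr' : r = -((q 0 : ℚ) : ℂ) / ((q 1 : ℚ) : ℂ) := by rw [hrdef]; push_cast; rfl
  set Q1 : Polynomial ℂ := Q + Polynomial.C (c / ((q 1 : ℚ) : ℂ)) +
    Polynomial.C (-r * (2 * Real.pi * Complex.I)) * Polynomial.X with hQ1
  have hv : ∀ s ∈ V, p m s (Sum.inr i2) = Q1.eval s + r * p m s (Sum.inl 0) := by
    intro s hs
    have h1 := hQ s hs
    have h2 := hqc' s hs
    have h3 : l s = (c - ((q 0 : ℚ) : ℂ) * T s) / ((q 1 : ℚ) : ℂ) := by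
      rw [← h2]; field_simp; ring
    have h4 : p m s (Sum.inr i2) = Q.eval s + l s := by rw [← h1]; ring
    rw [h4, h3, ← hTx s, hQ1, hr']
    simp only [Polynomial.eval_add, Polynomial.eval_mul, Polynomial.eval_C, Polynomial.eval_X]
    field_simp
    ring
  set ω : MvPolynomial (Fin 2) ℂ := Polynomial.aeval (X 0 : MvPolynomial (Fin 2) ℂ) Q1 +
    C r * (X 1 + C (2 * Real.pi * Complex.I) * X 0) with hω
  have hωe : ∀ a b : ℂ, eval ![a, b] (A2.eval₂ th ω) =
      (A2.map (eval (fun _ : Fin 1 => b + 2 * Real.pi * Complex.I * a))).eval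
        (Q1.eval a + r * (b + 2 * Real.pi * Complex.I * a)) := by
    intro a b
    rw [Polynomial.hom_eval₂, eval_comp_th, Polynomial.eval_map]
    congr 1
    rw [hω, map_add, eval_ps, map_mul, map_add, map_mul, eval_C, eval_C, eval_X, eval_X]
    simp
  have hΦ : A2.eval₂ th ω = 0 := by
    refine ax_one hVc hVo hVn hTa hTn rT' fun s hs => ?_
    rw [hωe, hTx, ← hv s hs]
    exact rel_pt (hg.pt s hs) hA2.rel
  have hall : ∀ a x : ℂ, (A2.map (eval (fun _ : Fin 1 => x))).eval (Q1.eval a + r * x) = 0 := by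
    intro a x
    have h1 := hωe a (x - 2 * Real.pi * Complex.I * a)
    rw [hΦ, map_zero, sub_add_cancel] at h1
    exact h1.symm
  -- `Q1` is constant
  have hQc : ∃ c' : ℂ, Q1 = Polynomial.C c' := by
    have hx : ∃ x : ℂ, eval (fun _ : Fin 1 => x) A2.leadingCoeff ≠ 0 := by
      by_contra hcon
      push Not at hcon
      have h1 := zero_of_fun _ hcon
      apply hA2.lead
      rw [h1, map_zero]
    obtain ⟨x, hx⟩ := hx
    have h1 : (A2.map (eval (fun _ : Fin 1 => x))).comp (Q1 + Polynomial.C (r * x)) = 0 := by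
      apply Polynomial.funext
      intro a
      rw [Polynomial.eval_comp, Polynomial.eval_add, Polynomial.eval_C, hall, Polynomial.eval_zero]
    rcases Polynomial.comp_eq_zero_iff.1 h1 with h2 | ⟨-, h2⟩
    · exfalso
      apply hx
      have := congrArg (fun q => Polynomial.coeff q A2.natDegree) h2
      simpa [Polynomial.coeff_map] using this
    · refine ⟨(Q1 + Polynomial.C (r * x)).coeff 0 - r * x, ?_⟩
      rw [Polynomial.C_sub, ← h2]
      ring
  obtain ⟨c', hc'⟩ := hQc
  refine hqc (-(q 0) / q 1) c' ?_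
  have h1 : A2.eval (C c' + C r * X 0) = 0 := by
    apply zero_of_fun
    intro x
    rw [eval_eval, map_add, map_mul, eval_C, eval_C, eval_X]
    have := hall 0 x
    rw [hc', Polynomial.eval_C] at this
    exact this
  have h2 := root_in_base hA2 (C c' + C r * X 0) (by rw [h1, map_zero])
  rw [h2, Pool.Agent.Q166.EG.ph_eq, map_add, map_mul, aeval_C, aeval_C, aeval_X]
  ring

end Pool.Agent.Helper57.CD
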