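import Pool.Agent.Helper57.NT.Field

/-!
Project NT (helper57): leaves over a curve, definitions.
-/

set_option autoImplicit false

namespace Pool.Agent.Helper57.CD

open MvPolynomial Filter Topology Metric Pool.Agent.Q72.EG Pool.Agent.Helper57.NT

variable {E : Type} [Field E] [Algebra ℂ E] {ι : Type}

/-- the region; `t 0 = x_1` -/
def Rg (m : ℕ) (t : Fin 1 → ℂ) : Prop :=
  t 0 ∈ ball (2 * Real.pi * Complex.I * (m : ℂ)) (m : ℝ)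

/-- the properties of a leaf; `exp x_1 = exp (2 π i s) y_1` -/
structure Good (ζ : Fin 1 → E) (f : ι → E) (k1 : ι) (m : ℕ) (p : ℂ → Fin 1 ⊕ ι → ℂ) : Prop where
  dif : ∀ i, DifferentiableOn ℂ (fun s => p s i) (ball 0 ((m : ℝ) / 256))
  pt : ∀ s ∈ ball (0 : ℂ) ((m : ℝ) / 256), p s ∈ Pt (Sum.elim ζ f)
  rg : ∀ s ∈ ball (0 : ℂ) ((m : ℝ) / 256), Rg m (p s ∘ Sum.inl)
  ex : ∀ s ∈ ball (0 : ℂ) ((m : ℝ) / 256), Complex.exp (p s (Sum.inl 0)) =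
    Complex.exp (2 * Real.pi * Complex.I * s) * p s (Sum.inr k1)

/-- leaves with their vector field -/
structure Lf0 (ζ : Fin 1 → E) (f : ι → E) (k1 : ι) (p : ℕ → ℂ → Fin 1 ⊕ ι → ℂ) where
  B : MvPolynomial (Fin 1 ⊕ ι) ℂ
  A : Fin 1 ⊕ ι → MvPolynomial (Fin 1 ⊕ ι) ℂ
  hB : aeval (Sum.elim ζ f) B ≠ 0
  good : ∀ᶠ m : ℕ in atTop, Good ζ f k1 m (p m)
  dif : ∀ᶠ m : ℕ in atTop, ∀ s ∈ ball (0 : ℂ) ((m : ℝ) / 256), ∀ i,
    HasDerivAt (fun s => p m s i) (eval (p m s) (A i) / eval (p m s) B) s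

/-- **S_size**: sizes of algebraic functions in the region are bounded by powers of `m` -/
def S_size : Prop := ∀ {E : Type} [Field E] [Algebra ℂ E] {ι : Type} (ζ : Fin 1 → E) (f : ι → E),
    (∀ k, IsAlgebraic (IntermediateField.adjoin ℂ (Set.range ζ)) (f k)) →
    ∀ a : MvPolynomial (Fin 1 ⊕ ι) ℂ, aeval (Sum.elim ζ f) a ≠ 0 →
    ∃ C : ℝ, 0 ≤ C ∧ ∀ᶠ m : ℕ in atTop, ∀ p ∈ Pt (Sum.elim ζ f), Rg m (p ∘ Sum.inl) →
      eval p a ≠ 0 ∧ |Real.log ‖eval p a‖| ≤ C * Real.log m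

/-- **S_leaf**: existence of the leaves and of the vector field -/
def S_leaf : Prop := ∀ {E : Type} [Field E] [Algebra ℂ E] {ι : Type} [Fintype ι] (ζ : Fin 1 → E)
    (f : ι → E), (∀ g : MvPolynomial (Fin 1) ℂ, aeval ζ g = 0 → g = 0) →
    (∀ k, IsAlgebraic (IntermediateField.adjoin ℂ (Set.range ζ)) (f k)) → ∀ k1 : ι, f k1 ≠ 0 →
    ∃ p : ℕ → ℂ → Fin 1 ⊕ ι → ℂ, Nonempty (Lf0 ζ f k1 p)

/-- the derivatives of `x_2 - log A` along the leaves are `uu n / ww n`, `A` the coordinate `j` -/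
noncomputable def uw [Fintype ι] {ζ : Fin 1 → E} {f : ι → E} {k1 : ι}
    {p : ℕ → ℂ → Fin 1 ⊕ ι → ℂ} (L : Lf0 ζ f k1 p) (i2 j : ι) :
    ℕ → MvPolynomial (Fin 1 ⊕ ι) ℂ × MvPolynomial (Fin 1 ⊕ ι) ℂ
  | 0 => (L.A (Sum.inr i2) * X (Sum.inr j) - L.A (Sum.inr j), L.B * X (Sum.inr j))
  | n + 1 => (DD L.A (uw L i2 j n).1 * (uw L i2 j n).2 - (uw L i2 j n).1 * DD L.A (uw L i2 j n).2,
      L.B * (uw L i2 j n).2 ^ 2)

/-- **S_ax**: if a derivative vanishes then `y_1` is constant or `x_2 = q x_1 + c` -/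
def S_ax : Prop := ∀ {E : Type} [Field E] [Algebra ℂ E] {ι : Type} [Fintype ι] (ζ : Fin 1 → E)
    (f : ι → E), (∀ g : MvPolynomial (Fin 1) ℂ, aeval ζ g = 0 → g = 0) →
    (∀ k, IsAlgebraic (IntermediateField.adjoin ℂ (Set.range ζ)) (f k)) → ∀ k1 : ι,
    ∀ (p : ℕ → ℂ → Fin 1 ⊕ ι → ℂ) (L : Lf0 ζ f k1 p) (i2 j : ι), f j ≠ 0 →
    (∀ c : ℂ, f k1 ≠ algebraMap ℂ E c) →
    (∀ (q : ℚ) (c : ℂ), f i2 ≠ algebraMap ℂ E q * ζ 0 + algebraMap ℂ E c) →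
    ∀ n, aeval (Sum.elim ζ f) (uw L i2 j n).1 ≠ 0

end Pool.Agent.Helper57.CD
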