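import Pool.Agent.Helper57.CD.Leaf

/-!
Project NT (helper57): the vector field along the leaves over a curve.
-/

set_option autoImplicit false

namespace Pool.Agent.Helper57.CD

open MvPolynomial Filter Topology Metric Pool.Agent.Q72.EG
open Pool.Agent.Helper57.NT (chain)

variable {E : Type} [Field E] [Algebra ℂ E] {ι : Type}

/-- a relation as a polynomial in all variables -/
noncomputable def rel (F : Polynomial (MvPolynomial (Fin 1) ℂ)) (i : ι) :
    MvPolynomial (Fin 1 ⊕ ι) ℂ :=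
  F.eval₂ (rename Sum.inl : MvPolynomial (Fin 1) ℂ →ₐ[ℂ] MvPolynomial (Fin 1 ⊕ ι) ℂ).toRingHom
    (X (Sum.inr i))

theorem aeval_rel (ζ : Fin 1 → E) (f : ι → E) (F : Polynomial (MvPolynomial (Fin 1) ℂ)) (i : ι) :
    aeval (Sum.elim ζ f) (rel F i) = Pool.Agent.Q166.EG.ev ζ (f i) F := by
  rw [rel, Pool.Agent.Q166.EG.ev]
  have h := Polynomial.hom_eval₂ F
    (rename Sum.inl : MvPolynomial (Fin 1) ℂ →ₐ[ℂ] MvPolynomial (Fin 1 ⊕ ι) ℂ).toRingHom
    (aeval (Sum.elim ζ f) : MvPolynomial (Fin 1 ⊕ ι) ℂ →ₐ[ℂ] E).toRingHom (X (Sum.inr i))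
  refine Eq.trans h ?_
  congr 1
  · ext x
    · simp [Pool.Agent.Q166.EG.ph_eq]
    · simp [Pool.Agent.Q166.EG.ph_eq]
  · simp

theorem rel_monomial (n : ℕ) (a : MvPolynomial (Fin 1) ℂ) (i : ι) :
    rel (Polynomial.monomial n a) i = rename Sum.inl a * X (Sum.inr i) ^ n := by
  rw [rel, Polynomial.eval₂_monomial]
  rfl

theorem rel_add (F G : Polynomial (MvPolynomial (Fin 1) ℂ)) (i : ι) :
    rel (F + G) i = rel F i + rel G i := Polynomial.eval₂_add _ _

theorem pderiv_inr_rename (i : ι) (a : MvPolynomial (Fin 1) ℂ) :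
    pderiv (Sum.inr i : Fin 1 ⊕ ι) (rename Sum.inl a) = 0 := by
  classical
  refine pderiv_eq_zero_of_notMem_vars fun h => ?_
  have h1 := vars_rename (Sum.inl : Fin 1 → Fin 1 ⊕ ι) a h
  rw [Finset.mem_image] at h1
  obtain ⟨j, -, hj⟩ := h1
  exact Sum.inl_ne_inr hj

theorem pderiv_rel_same (F : Polynomial (MvPolynomial (Fin 1) ℂ)) (i : ι) :
    pderiv (Sum.inr i) (rel F i) = rel (Polynomial.derivative F) i := by
  induction F using Polynomial.induction_on' with
  | add F G hF hG => rw [rel_add, map_add, hF, hG, map_add, rel_add]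
  | monomial n a =>
    rw [rel_monomial, Polynomial.derivative_monomial, rel_monomial, Derivation.leibniz,
      pderiv_inr_rename, smul_zero, add_zero, Derivation.leibniz_pow, pderiv_X_self, smul_eq_mul,
      nsmul_eq_mul, smul_eq_mul, mul_one, map_mul, map_natCast]
    ring

theorem pderiv_rel_other (F : Polynomial (MvPolynomial (Fin 1) ℂ)) {i k : ι} (hk : k ≠ i) :
    pderiv (Sum.inr k) (rel F i) = 0 := by
  classical
  induction F using Polynomial.induction_on' with
  | add F G hF hG => rw [rel_add, map_add, hF, hG, add_zero]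
  | monomial n a =>
    have h1 : pderiv (Sum.inr k : Fin 1 ⊕ ι) (X (Sum.inr i) : MvPolynomial (Fin 1 ⊕ ι) ℂ) = 0 :=
      pderiv_X_of_ne (fun h => hk (Sum.inr_injective h).symm)
    rw [rel_monomial, Derivation.leibniz, pderiv_inr_rename, smul_zero, add_zero,
      Derivation.leibniz_pow, h1, smul_zero, smul_zero, smul_zero]

/-- the derivative of a minimal relation does not vanish -/
theorem mn_deriv {ζ : Fin 1 → E} {w : E} {F : Polynomial (MvPolynomial (Fin 1) ℂ)}
    (hF : Pool.Agent.Q166.EG.Mn ζ w F) :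
    Pool.Agent.Q166.EG.ev ζ w (Polynomial.derivative F) ≠ 0 := by
  intro h
  have hlt : (Polynomial.derivative F).natDegree < F.natDegree :=
    Polynomial.natDegree_derivative_lt (by have := hF.deg; omega)
  have h1 := hF.min _ hlt h
  have h2 := congrArg (fun p => Polynomial.coeff p (F.natDegree - 1)) h1
  simp only [Polynomial.coeff_map, Polynomial.coeff_derivative, Polynomial.coeff_zero] at h2
  have h3 : F.natDegree - 1 + 1 = F.natDegree := by have := hF.deg; omega
  rw [h3, map_mul] at h2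
  rcases mul_eq_zero.1 h2 with h4 | h4
  · exact hF.lead h4
  · have h5 : Pool.Agent.Q166.EG.ph ζ (((F.natDegree - 1 : ℕ) : MvPolynomial (Fin 1) ℂ) + 1) =
        ((F.natDegree : ℕ) : E) := by
      have h6 : (((F.natDegree - 1 : ℕ) : MvPolynomial (Fin 1) ℂ) + 1) = ((F.natDegree : ℕ) : MvPolynomial (Fin 1) ℂ) := by
        rw [← Nat.cast_succ]; congr 1
      rw [h6, map_natCast]
    rw [h5] at h4
    have : CharZero E := charZero_of_injective_algebraMap (algebraMap ℂ E).injective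
    have h7 : (F.natDegree : E) ≠ 0 := Nat.cast_ne_zero.2 (by have := hF.deg; omega)
    exact h7 h4

/-- **the vector field** -/
theorem leaf : S_leaf := by
  intro E _ _ ι _ ζ f hind hf k1 hk1
  classical
  obtain ⟨p, hp⟩ := (exists_good hind hf hk1).choice
  refine ⟨p, ?_⟩
  choose F hF using fun i => Pool.Agent.Q166.EG.mn_alg (hf i)
  set ξ : Fin 1 ⊕ ι → E := Sum.elim ζ f with hξ
  set r : ι → MvPolynomial (Fin 1 ⊕ ι) ℂ := fun i => rel (F i) i with hr
  set a1 : ι → MvPolynomial (Fin 1 ⊕ ι) ℂ := fun i => pderiv (Sum.inl 0) (r i) with ha1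
  set b : ι → MvPolynomial (Fin 1 ⊕ ι) ℂ := fun i => pderiv (Sum.inr i) (r i) with hb
  have hrξ : ∀ i, aeval ξ (r i) = 0 := fun i => by
    rw [hr, hξ, aeval_rel]; exact (hF i).rel
  have hbξ : ∀ i, aeval ξ (b i) ≠ 0 := fun i => by
    rw [hb, hξ]
    simp only [hr]
    rw [pderiv_rel_same, aeval_rel]
    exact mn_deriv (hF i)
  have hsum : ∀ (q' : Fin 1 ⊕ ι → ℂ) (P : Fin 1 ⊕ ι → ℂ) (i : ι),
      ∑ j, q' j * eval P (pderiv j (r i)) =
        q' (Sum.inl 0) * eval P (a1 i) + q' (Sum.inr i) * eval P (b i) := by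
    intro q' P i
    rw [Fintype.sum_sum_type, Fin.sum_univ_one]
    congr 1
    rw [Finset.sum_eq_single i]
    · intro k _ hk
      simp only [hr]
      rw [pderiv_rel_other _ hk, map_zero, mul_zero]
    · intro h; exact absurd (Finset.mem_univ i) h
  set N : MvPolynomial (Fin 1 ⊕ ι) ℂ := b k1 * X (Sum.inr k1) + a1 k1 with hN
  set c2 : ℂ := 2 * Real.pi * Complex.I with hc2
  have hc20 : c2 ≠ 0 := Complex.two_pi_I_ne_zero
  -- sizes
  have hbsz : ∀ i, ∀ᶠ m : ℕ in atTop, ∀ s ∈ ball (0 : ℂ) ((m : ℝ) / 256), eval (p m s) (b i) ≠ 0 := by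
    intro i
    obtain ⟨_, _, hC⟩ := size ζ f hf _ (hbξ i)
    filter_upwards [hC, hp] with m h1 h2 s hs
    exact (h1 _ (h2.pt s hs) (h2.rg s hs)).1
  have hysz : ∀ᶠ m : ℕ in atTop, ∀ s ∈ ball (0 : ℂ) ((m : ℝ) / 256), p m s (Sum.inr k1) ≠ 0 := by
    filter_upwards [hp] with m h2 s hs h0
    have h1 := h2.ex s hs
    rw [h0, mul_zero] at h1
    exact Complex.exp_ne_zero _ h1
  -- derivatives
  have hD : ∀ᶠ m : ℕ in atTop, ∀ s ∈ ball (0 : ℂ) ((m : ℝ) / 256), ∃ d : Fin 1 ⊕ ι → ℂ,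
      (∀ i, HasDerivAt (fun s => p m s i) (d i) s) ∧
      (∀ i, d (Sum.inl 0) * eval (p m s) (a1 i) + d (Sum.inr i) * eval (p m s) (b i) = 0) ∧
      d (Sum.inl 0) * p m s (Sum.inr k1) = c2 * p m s (Sum.inr k1) + d (Sum.inr k1) := by
    filter_upwards [hp] with m hg s hs
    have hn : ball (0 : ℂ) ((m : ℝ) / 256) ∈ 𝓝 s := isOpen_ball.mem_nhds hs
    have hder : ∀ i, HasDerivAt (fun s => p m s i) (deriv (fun s => p m s i) s) s := fun i =>
      ((hg.dif i).differentiableAt hn).hasDerivAt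
    refine ⟨_, hder, fun i => ?_, ?_⟩
    · have h8 := chain hder (r i)
      have h9 : (fun t => eval (p m t) (r i)) =ᶠ[𝓝 s] fun _ => (0 : ℂ) := by
        filter_upwards [hn] with t ht
        exact hg.pt t ht _ (hrξ i)
      have h10 := (h8.congr_of_eventuallyEq h9.symm).unique (hasDerivAt_const _ (0 : ℂ))
      rw [hsum] at h10
      exact h10
    · have h1 : (fun s => Complex.exp (p m s (Sum.inl 0))) =ᶠ[𝓝 s]
          fun s => Complex.exp (c2 * s) * p m s (Sum.inr k1) := by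
        filter_upwards [hn] with s hs using hg.ex s hs
      have h2 := (hder (Sum.inl 0)).cexp
      have h3 : HasDerivAt (fun s : ℂ => Complex.exp (c2 * s)) (Complex.exp (c2 * s) * c2) s := by
        have := ((hasDerivAt_id s).const_mul c2).cexp
        simpa using this
      have h4 := h3.mul (hder (Sum.inr k1))
      have h5 := (h2.congr_of_eventuallyEq h1.symm).unique h4
      rw [hg.ex s hs] at h5
      have h6 : Complex.exp (c2 * s) ≠ 0 := Complex.exp_ne_zero _
      have h7 : Complex.exp (c2 * s) * (deriv (fun s => p m s (Sum.inl 0)) s * p m s (Sum.inr k1)) =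
          Complex.exp (c2 * s) * (c2 * p m s (Sum.inr k1) + deriv (fun s => p m s (Sum.inr k1)) s) := by
        linear_combination h5
      exact mul_left_cancel₀ h6 h7
  have hNval : ∀ P : Fin 1 ⊕ ι → ℂ, eval P N = eval P (b k1) * P (Sum.inr k1) + eval P (a1 k1) := by
    intro P
    rw [hN, map_add, map_mul, eval_X]
  have hd1 : ∀ᶠ m : ℕ in atTop, ∀ s ∈ ball (0 : ℂ) ((m : ℝ) / 256), ∃ d : Fin 1 ⊕ ι → ℂ,
      (∀ i, HasDerivAt (fun s => p m s i) (d i) s) ∧
      (∀ i, d (Sum.inl 0) * eval (p m s) (a1 i) + d (Sum.inr i) * eval (p m s) (b i) = 0) ∧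
      d (Sum.inl 0) * eval (p m s) N = c2 * p m s (Sum.inr k1) * eval (p m s) (b k1) := by
    filter_upwards [hD] with m hD s hs
    obtain ⟨d, h1, h2, h3⟩ := hD s hs
    refine ⟨d, h1, h2, ?_⟩
    rw [hNval]
    linear_combination eval (p m s) (b k1) * h3 + h2 k1
  have hNp : ∀ᶠ m : ℕ in atTop, ∀ s ∈ ball (0 : ℂ) ((m : ℝ) / 256), eval (p m s) N ≠ 0 := by
    filter_upwards [hbsz k1, hysz, hd1] with m hb1 hy hd1 s hs h0
    obtain ⟨d, -, -, h3⟩ := hd1 s hs
    rw [h0, mul_zero] at h3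
    exact mul_ne_zero (mul_ne_zero hc20 (hy s hs)) (hb1 s hs) h3.symm
  have hNξ : aeval ξ N ≠ 0 := by
    intro h
    obtain ⟨m, h1, h2, hm⟩ := (hNp.and (hp.and (eventually_gt_atTop 0))).exists
    have hm' : (0 : ℝ) < m := by exact_mod_cast hm
    have h0 : (0 : ℂ) ∈ ball (0 : ℂ) ((m : ℝ) / 256) := mem_ball_self (by positivity)
    exact h1 0 h0 (h2.pt 0 h0 N h)
  set Pb : MvPolynomial (Fin 1 ⊕ ι) ℂ := ∏ j, b j with hPbd
  refine ⟨{
    B := N * Pb
    A := Sum.elim (fun _ => C c2 * X (Sum.inr k1) * b k1 * Pb)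
      (fun i => -a1 i * (C c2 * X (Sum.inr k1) * b k1) * ∏ j ∈ Finset.univ.erase i, b j)
    hB := by
      rw [map_mul]
      refine mul_ne_zero hNξ ?_
      rw [hPbd, map_prod]
      exact Finset.prod_ne_zero_iff.2 fun j _ => hbξ j
    good := hp
    dif := ?_ }⟩
  filter_upwards [(Filter.eventually_all).2 hbsz, hNp, hd1] with m hbm hNm hd1 s hs
  obtain ⟨d, hder, hrel, hd1⟩ := hd1 s hs
  have hNne := hNm s hs
  have hbne : ∀ i, eval (p m s) (b i) ≠ 0 := fun i => hbm i s hs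
  have hPne : eval (p m s) Pb ≠ 0 := by
    rw [hPbd, map_prod]
    exact Finset.prod_ne_zero_iff.2 fun j _ => hbne j
  intro i
  refine (hder i).congr_deriv ?_
  rcases i with i | i
  · have hi : i = 0 := Subsingleton.elim _ _
    subst hi
    rw [eq_div_iff (by rw [map_mul]; exact mul_ne_zero hNne hPne)]
    simp only [Sum.elim_inl, map_mul, eval_X, eval_C]
    linear_combination eval (p m s) Pb * hd1
  · have h1 := hrel i
    have h2 : Pb = b i * ∏ j ∈ Finset.univ.erase i, b j :=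
      (Finset.mul_prod_erase Finset.univ b (Finset.mem_univ i)).symm
    rw [eq_div_iff (by rw [map_mul]; exact mul_ne_zero hNne hPne)]
    simp only [Sum.elim_inr, map_mul, map_neg, eval_X, eval_C]
    rw [h2, map_mul]
    linear_combination (eval (p m s) N * eval (p m s) (∏ j ∈ Finset.univ.erase i, b j)) * h1 -
      (eval (p m s) (a1 i) * eval (p m s) (∏ j ∈ Finset.univ.erase i, b j)) * hd1

end Pool.Agent.Helper57.CD
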