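import Mathlib

/-!
Project NT (helper57): forward differences of functions with values in `2 π i ℤ` on arithmetic
progressions.
-/

set_option autoImplicit false

namespace Pool.Agent.Helper57.CD

open Filter Topology Metric

/-- van der Waerden, finite form -/
theorem vdw_finite (κ : Type) [Finite κ] (N : ℕ) : ∃ W : ℕ, ∀ C : ℕ → κ, ∃ a d : ℕ, 0 < d ∧ a + N * d ≤ W ∧
    ∃ c, ∀ i ≤ N, C (a + i * d) = c := by
  classical
  obtain ⟨ι, _inst, hι⟩ := Combinatorics.Line.exists_mono_in_high_dimension (Fin (N + 1)) κ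
  refine ⟨Fintype.card ι * N, fun C => ?_⟩
  obtain ⟨l, c, hl⟩ := hι fun v => C (∑ i, (v i : ℕ))
  set s : Finset ι := {i | l.idxFun i = none} with hs
  set a : ℕ := ∑ i ∈ sᶜ, ((l.idxFun i).map (fun y : Fin (N + 1) => (y : ℕ))).getD 0 with ha
  have hsum : ∀ x : Fin (N + 1), ∑ i, ((l x i : Fin (N + 1)) : ℕ) = a + (x : ℕ) * s.card := by
    intro x
    rw [← Finset.sum_add_sum_compl s, add_comm]
    congr 1
    · apply Finset.sum_congr rfl
      intro i hi
      rw [hs, Finset.compl_filter, Finset.mem_filter] at hi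
      obtain ⟨y, hy⟩ := Option.ne_none_iff_exists.mp hi.right
      rw [Combinatorics.Line.apply_some hy.symm, ← hy]
      rfl
    · rw [mul_comm, ← smul_eq_mul, ← Finset.sum_const]
      apply Finset.sum_congr rfl
      intro i hi
      rw [hs, Finset.mem_filter] at hi
      rw [l.apply_none _ _ hi.right]
  refine ⟨a, s.card, Finset.card_pos.mpr ⟨l.proper.choose, ?_⟩, ?_, c, fun i hi => ?_⟩
  · rw [hs, Finset.mem_filter]
    exact ⟨Finset.mem_univ _, l.proper.choose_spec⟩
  · have h1 := hsum (Fin.last N)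
    rw [Fin.val_last] at h1
    rw [← h1]
    calc ∑ i, ((l (Fin.last N) i : Fin (N + 1)) : ℕ) ≤ ∑ _i : ι, N :=
          Finset.sum_le_sum fun i _ => Nat.lt_succ_iff.1 (Fin.is_lt _)
      _ = Fintype.card ι * N := by rw [Finset.sum_const, Finset.card_univ, smul_eq_mul]
  · have h1 := hl ⟨i, Nat.lt_succ_iff.2 hi⟩
    have h2 := hsum ⟨i, Nat.lt_succ_iff.2 hi⟩
    simp only [h2] at h1
    exact h1

/-- lower bounds for differences -/
theorem fd_ge : ∀ (N : ℕ) (h : ℕ → ℝ → ℝ) (a d c : ℝ), 0 < d →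
    (∀ n < N, ∀ t ∈ Set.Icc a (a + N * d), HasDerivAt (h n) (h (n + 1) t) t) →
    (∀ t ∈ Set.Icc a (a + N * d), c ≤ h N t) → c * d ^ N ≤ (fwdDiff d)^[N] (h 0) a := by
  intro N
  induction N with
  | zero =>
    intro h a d c hd _ h2
    simpa using h2 a (by simp)
  | succ N ih =>
    intro h a d c hd h1 h2
    rw [Function.iterate_succ_apply]
    have hsub : ∀ t ∈ Set.Icc a (a + N * d), t ∈ Set.Icc a (a + (N + 1 : ℕ) * d) ∧
        t + d ∈ Set.Icc a (a + (N + 1 : ℕ) * d) := by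
      intro t ht
      rw [Set.mem_Icc] at ht ⊢
      rw [Set.mem_Icc]
      push_cast
      refine ⟨⟨ht.1, ?_⟩, ?_, ?_⟩ <;> nlinarith [ht.1, ht.2]
    have h3 := ih (fun n => fwdDiff d (h n)) a d (c * d) hd (by
      intro n hn t ht
      obtain ⟨e1, e2⟩ := hsub t ht
      have e3 := h1 n (by omega) t e1
      have e4 := h1 n (by omega) (t + d) e2
      exact (e4.comp_add_const t d).sub e3) (by
      intro t ht
      obtain ⟨e1, e2⟩ := hsub t ht
      have hI : ∀ x ∈ Set.Icc t (t + d), x ∈ Set.Icc a (a + (N + 1 : ℕ) * d) := fun x hx =>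
        ⟨e1.1.trans hx.1, hx.2.trans e2.2⟩
      have e5 := (convex_Icc t (t + d)).mul_sub_le_image_sub_of_le_deriv (f := h N) (C := c)
        (fun x hx => (h1 N (by omega) x (hI x hx)).continuousAt.continuousWithinAt)
        (fun x hx => (h1 N (by omega) x (hI x (interior_subset hx))).differentiableAt.differentiableWithinAt)
        (fun x hx => by
          rw [(h1 N (by omega) x (hI x (interior_subset hx))).deriv]
          exact h2 x (hI x (interior_subset hx)))
        t (Set.left_mem_Icc.2 (by linarith)) (t + d) (Set.right_mem_Icc.2 (by linarith)) (by linarith)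
      rw [add_sub_cancel_left] at e5
      exact e5)
    rw [pow_succ]
    calc c * (d ^ N * d) = c * d * d ^ N := by ring
      _ ≤ _ := h3

/-- **no arithmetic progressions** -/
theorem no_ap {N : ℕ} {ρ : ℝ} {g : ℕ → ℂ → ℂ}
    (hder : ∀ n < N, ∀ s ∈ ball (0 : ℂ) ρ, HasDerivAt (g n) (g (n + 1) s) s) {W : ℕ}
    (hW : (W : ℝ) < ρ) (hN : ∀ t : ℝ, 0 ≤ t → t ≤ W → ‖g N t‖ * (W : ℝ) ^ N < 2)
    {w : ℂ} (hre : ∀ t : ℝ, 0 ≤ t → t ≤ W → 1 / 2 ≤ (g N t * w).re) {a d : ℕ} (hd : 0 < d)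
    (haW : a + N * d ≤ W)
    (hint : ∀ i ≤ N, ∃ n : ℤ, g 0 ((a + i * d : ℕ) : ℂ) = n * (2 * Real.pi * Complex.I)) : False := by
  classical
  have hWr : (a : ℝ) + N * d ≤ W := by exact_mod_cast haW
  have hdr : (0 : ℝ) < d := by exact_mod_cast hd
  have hmem : ∀ t ∈ Set.Icc (a : ℝ) (a + N * d), 0 ≤ t ∧ t ≤ W ∧ (t : ℂ) ∈ ball (0 : ℂ) ρ := by
    intro t ht
    have h0 : (0 : ℝ) ≤ t := (Nat.cast_nonneg a).trans ht.1
    refine ⟨h0, ht.2.trans hWr, ?_⟩
    rw [mem_ball_zero_iff, Complex.norm_real, Real.norm_eq_abs, abs_of_nonneg h0]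
    linarith [ht.2]
  choose n hn using hint
  set n' : ℕ → ℤ := fun i => if h : i ≤ N then n i h else 0 with hn'
  set M : ℤ := ∑ k ∈ Finset.range (N + 1), ((-1 : ℤ) ^ (N - k) * N.choose k) * n' k with hM
  -- differences of the real parts
  have key : ∀ v : ℂ, (fwdDiff (d : ℝ))^[N] (fun t : ℝ => (g 0 t * v).re) a =
      ((M : ℂ) * (2 * Real.pi * Complex.I) * v).re := by
    intro v
    have hMc : (M : ℂ) = ∑ k ∈ Finset.range (N + 1),
        (-1 : ℂ) ^ (N - k) * (N.choose k : ℂ) * (n' k : ℂ) := by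
      rw [hM]; push_cast; rfl
    rw [fwdDiff_iter_eq_sum_shift, hMc, Finset.sum_mul, Finset.sum_mul, Complex.re_sum]
    refine Finset.sum_congr rfl fun k hk => ?_
    have hk' : k ≤ N := Nat.lt_succ_iff.1 (Finset.mem_range.1 hk)
    have e1 : (((a : ℝ) + k • (d : ℝ) : ℝ) : ℂ) = ((a + k * d : ℕ) : ℂ) := by
      rw [nsmul_eq_mul]; push_cast; rfl
    beta_reduce
    rw [e1, hn k hk']
    have e2 : n' k = n k hk' := by rw [hn']; simp only [hk', dif_pos]
    rw [e2, zsmul_eq_mul]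
    have e3 : ((((-1 : ℤ) ^ (N - k) * (N.choose k : ℤ) : ℤ)) : ℝ) =
        (-1 : ℝ) ^ (N - k) * (N.choose k : ℝ) := by push_cast; rfl
    have e4 : (-1 : ℂ) ^ (N - k) * (N.choose k : ℂ) * (n k hk' : ℂ) * (2 * Real.pi * Complex.I) * v =
        (((-1 : ℝ) ^ (N - k) * (N.choose k : ℝ) : ℝ) : ℂ) * ((n k hk' : ℂ) * (2 * Real.pi * Complex.I) * v) := by
      push_cast; ring
    rw [e4, Complex.re_ofReal_mul, e3]
  have hfd : ∀ (v : ℂ) (c : ℝ), (∀ t : ℝ, 0 ≤ t → t ≤ W → c ≤ (g N t * v).re) →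
      c * (d : ℝ) ^ N ≤ ((M : ℂ) * (2 * Real.pi * Complex.I) * v).re := by
    intro v c hc
    rw [← key v]
    exact fd_ge N (fun n t => (g n t * v).re) a d c hdr
      (fun n hn t ht => ((hder n hn t (hmem t ht).2.2).mul_const v).real_of_complex)
      (fun t ht => hc t (hmem t ht).1 (hmem t ht).2.1)
  have hpi := Real.pi_gt_three
  -- the integer vanishes
  have hM0 : M = 0 := by
    have hdW : (d : ℝ) ^ N ≤ (W : ℝ) ^ N := by
      rcases Nat.eq_zero_or_pos N with h0 | h0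
      · rw [h0, pow_zero, pow_zero]
      · have : (d : ℝ) ≤ W := by
          have h1 : d ≤ N * d := Nat.le_mul_of_pos_left d h0
          exact_mod_cast (show d ≤ W by omega)
        gcongr
    have hdp : (0 : ℝ) < (d : ℝ) ^ N := by positivity
    -- a common bound
    have hb : ∀ t : ℝ, 0 ≤ t → t ≤ W → ‖g N t‖ ≤ 2 / (d : ℝ) ^ N := by
      intro t h0 h1
      rw [le_div_iff₀ hdp]
      have := hN t h0 h1
      nlinarith [norm_nonneg (g N t)]
    have h1 := hfd (-Complex.I) (-(2 / (d : ℝ) ^ N)) (fun t h0 h1 => by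
      have e1 := Complex.abs_re_le_norm (g N t * -Complex.I)
      rw [norm_mul, norm_neg, Complex.norm_I, mul_one, abs_le] at e1
      linarith [hb t h0 h1, e1.1])
    have h2 := hfd Complex.I (-(2 / (d : ℝ) ^ N)) (fun t h0 h1 => by
      have e1 := Complex.abs_re_le_norm (g N t * Complex.I)
      rw [norm_mul, Complex.norm_I, mul_one, abs_le] at e1
      linarith [hb t h0 h1, e1.1])
    have e5 : ((M : ℂ) * (2 * Real.pi * Complex.I) * -Complex.I).re = 2 * Real.pi * M := by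
      have : (M : ℂ) * (2 * Real.pi * Complex.I) * -Complex.I =
          ((2 * Real.pi * M : ℝ) : ℂ) * (-(Complex.I * Complex.I)) := by push_cast; ring
      rw [this, Complex.I_mul_I, neg_neg, mul_one, Complex.ofReal_re]
    have e6 : ((M : ℂ) * (2 * Real.pi * Complex.I) * Complex.I).re = -(2 * Real.pi * M) := by
      have : (M : ℂ) * (2 * Real.pi * Complex.I) * Complex.I =
          ((2 * Real.pi * M : ℝ) : ℂ) * ((Complex.I * Complex.I)) := by push_cast; ring
      rw [this, Complex.I_mul_I, mul_neg, mul_one, Complex.neg_re, Complex.ofReal_re]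
    rw [e5] at h1
    rw [e6] at h2
    have e7 : -(2 / (d : ℝ) ^ N) * (d : ℝ) ^ N = -2 := by field_simp
    rw [e7] at h1 h2
    by_contra hne
    rcases lt_or_gt_of_ne hne with h | h
    · have : (M : ℝ) ≤ -1 := by exact_mod_cast (show M ≤ -1 by omega)
      nlinarith
    · have : (1 : ℝ) ≤ M := by exact_mod_cast (show 1 ≤ M by omega)
      nlinarith
  have h1 := hfd w (1 / 2) hre
  rw [hM0] at h1
  simp only [Int.cast_zero, zero_mul, Complex.zero_re] at h1
  have : (0 : ℝ) < (d : ℝ) ^ N := by positivity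
  linarith

end Pool.Agent.Helper57.CD
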