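import Pool.Agent.Helper57.CD.Size

/-!
Project NT (helper57): leaves over a curve: existence.
-/

set_option autoImplicit false

namespace Pool.Agent.Helper57.CD

open MvPolynomial Filter Topology Metric Pool.Agent.Q72.EG Pool.Agent.Helper57.NT

variable {E : Type} [Field E] [Algebra ℂ E] {ι : Type}

theorem exists_good {ζ : Fin 1 → E} (hind : ∀ g : MvPolynomial (Fin 1) ℂ, aeval ζ g = 0 → g = 0)
    [Finite ι] {f : ι → E}
    (hf : ∀ k, IsAlgebraic (IntermediateField.adjoin ℂ (Set.range ζ)) (f k)) {k1 : ι}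
    (hk1 : f k1 ≠ 0) : ∀ᶠ m : ℕ in atTop, ∃ p : ℂ → Fin 1 ⊕ ι → ℂ, Good ζ f k1 m p := by
  classical
  obtain ⟨H1, hH1, hlift⟩ := Pool.Agent.Helper57.HT.lift_alg ζ f hf
  have hH0 : H1 ≠ 0 := by rintro rfl; exact hH1 (map_zero _)
  obtain ⟨CH, -, hCH⟩ := poly_reg hH0
  obtain ⟨C0, hC0, hsz⟩ := size ζ f hf (X (Sum.inr k1)) (by
    rw [aeval_X]; exact hk1)
  have hbig1 := log_small C0 Real.pi (show (0 : ℝ) < 1 / 600 by norm_num)
  have hbig2 := log_small (32 * C0) 32 (show (0 : ℝ) < 1 / 2 by norm_num)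
  filter_upwards [hCH, hsz, hbig1, hbig2, eventually_ge_atTop 3] with m hCH hsz hbig1 hbig2 hm3
  have hm3' : (3 : ℝ) ≤ m := by exact_mod_cast hm3
  have hm2 : (0 : ℝ) < (m : ℝ) := by linarith
  have hlog : 0 ≤ Real.log m := Real.log_nonneg (by linarith)
  set c : ℂ := 2 * Real.pi * Complex.I * (m : ℂ) with hc
  set U : Set ℂ := ball c (m : ℝ) with hU
  have hUo : IsOpen U := isOpen_ball
  have hUc : Convex ℝ U := convex_ball _ _
  have hc0U : c ∈ U := mem_ball_self hm2
  set t : ℂ → Fin 1 → ℂ := fun u => ![u] with ht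
  have ht0 : ∀ u, t u 0 = u := fun u => rfl
  have htd : ∀ i, DifferentiableOn ℂ (fun u => t u i) U := by
    intro i
    have : i = 0 := Subsingleton.elim _ _
    subst this
    simp only [ht0]
    exact differentiableOn_id
  have hrg : ∀ u ∈ U, Rg m (t u) := fun u hu => hu
  have htP : ∀ u, t u ∈ Pt ζ := by
    intro u g hg
    rw [hind g hg, map_zero]
  obtain ⟨q, hqd, hqP⟩ := hlift U hUo hUc ⟨_, hc0U⟩ t htd (fun u _ => htP u)
    (fun u hu => (hCH _ (hrg u hu)).1)
  set P : ℂ → Fin 1 ⊕ ι → ℂ := fun u => Sum.elim (t u) (q u) with hP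
  have hPd : ∀ i, DifferentiableOn ℂ (fun u => P u i) U := by
    rintro (i | i)
    · exact htd i
    · exact hqd i
  have hPi : ∀ u, P u ∘ Sum.inl = t u := fun u => rfl
  have hy : ∀ u ∈ U, q u k1 ≠ 0 ∧ |Real.log ‖q u k1‖| ≤ C0 * Real.log m := by
    intro u hu
    have := hsz (P u) (hqP u hu) (by rw [hPi]; exact hrg u hu)
    simpa [hP] using this
  obtain ⟨lam0, hlamd, hlam⟩ := Pool.Agent.Helper57.HT.log_conv hUo hUc ⟨_, hc0U⟩ (hqd k1)
    (fun u hu => (hy u hu).1)
  set n0 : ℤ := round ((lam0 c).im / (2 * Real.pi)) with hn0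
  set lam : ℂ → ℂ := fun u => lam0 u - 2 * Real.pi * Complex.I * (n0 : ℂ) with hlamdef
  have hlamd' : DifferentiableOn ℂ lam U := hlamd.sub_const _
  have hexpl : ∀ u ∈ U, Complex.exp (lam u) = q u k1 := by
    intro u hu
    have h1 : Complex.exp (2 * Real.pi * Complex.I * (n0 : ℂ)) = 1 := by
      rw [mul_comm, Complex.exp_int_mul_two_pi_mul_I]
    rw [hlamdef]
    simp only
    rw [Complex.exp_sub, h1, div_one]
    exact hlam u hu
  have hre : ∀ u ∈ U, |(lam u).re| ≤ C0 * Real.log m := by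
    intro u hu
    have h1 := (hy u hu).2
    rw [← hexpl u hu, Complex.norm_exp, Real.log_exp] at h1
    exact h1
  have him0 : |(lam c).im| ≤ Real.pi := by
    have h1 : (lam c).im = (lam0 c).im - 2 * Real.pi * n0 := by
      simp [hlamdef]
    rw [h1]
    have h2 := abs_sub_round ((lam0 c).im / (2 * Real.pi))
    rw [← hn0] at h2
    have hpi := Real.pi_pos
    have h3 : (lam0 c).im - 2 * Real.pi * n0 =
        2 * Real.pi * ((lam0 c).im / (2 * Real.pi) - n0) := by
      field_simp
    rw [h3, abs_mul, abs_of_pos (by positivity)]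
    nlinarith
  set B := C0 * Real.log m + 1 with hB
  have hC0m : 0 ≤ C0 * Real.log m := by positivity
  have hBp : 0 < B := by positivity
  have hreB : ∀ u ∈ U, |(lam u).re| ≤ B := fun u hu => (hre u hu).trans (by linarith)
  have hlip : ∀ t ∈ ball c ((m : ℝ) / 4), ∀ t' ∈ ball c ((m : ℝ) / 4),
      ‖lam t - lam t'‖ ≤ 1 / 2 * ‖t - t'‖ := by
    intro t ht t' ht'
    have hr : (m : ℝ) / 4 + 2 * ((m : ℝ) / 8) = (m : ℝ) / 2 := by ring
    have h1 := lip_of_bdd' (f := fun t => lam t - lam c) (z := c) (r := (m : ℝ) / 4)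
      (δ := (m : ℝ) / 8) (C := 4 * B) (by positivity)
      (by
        rw [hr]
        exact (hlamd'.mono (ball_subset_ball (by linarith))).sub_const _)
      (by
        rw [hr]
        intro w hw
        rw [mem_ball, dist_eq_norm] at hw
        have h2 := bc_ball (g := lam) hm2 hBp hlamd'
          (fun t ht => hreB _ ht) (t := w) (θ := 1 / 2) (by norm_num) (by linarith)
        refine h2.trans (le_of_eq ?_)
        ring) t ht t' ht'
    simp only [sub_sub_sub_cancel_right] at h1
    refine h1.trans (mul_le_mul_of_nonneg_right ?_ (norm_nonneg _))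
    rw [div_le_iff₀ (by positivity)]
    linarith
  set Λ : ℂ × ℂ → ℂ := fun u => 2 * Real.pi * Complex.I * u.2 + lam u.1 with hΛ
  have hΛd : DifferentiableOn ℂ Λ (ball c ((m : ℝ) / 4) ×ˢ ball 0 ((m : ℝ) / 256)) := by
    refine DifferentiableOn.add ?_ ?_
    · exact (differentiable_snd.const_mul _).differentiableOn
    · exact hlamd'.comp differentiableOn_fst fun u hu =>
        ball_subset_ball (by linarith) hu.1
  obtain ⟨T, hTd, hT⟩ := fix_param (c := c) (ρ := (m : ℝ) / 4) (by positivity)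
    (Ω := ball (0 : ℂ) ((m : ℝ) / 256)) isOpen_ball (lam := Λ) hΛd
    (fun s hs t ht t' ht' => by
      simp only [hΛ, add_sub_add_left_eq_sub]
      exact hlip t ht t' ht')
    (fun s hs => by
      simp only [hΛ]
      rw [mem_ball_zero_iff] at hs
      have h2 : ‖lam c‖ ≤ C0 * Real.log m + Real.pi :=
        (Complex.norm_le_abs_re_add_abs_im _).trans (add_le_add (hre _ hc0U) him0)
      have h3 := norm_add_le (2 * Real.pi * Complex.I * s) (lam c)
      have h4 : ‖2 * Real.pi * Complex.I * s‖ = 2 * Real.pi * ‖s‖ := by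
        simp only [norm_mul, Complex.norm_I, Complex.norm_real, Real.norm_eq_abs, Complex.norm_ofNat]
        rw [abs_of_pos Real.pi_pos]; ring
      rw [h4] at h3
      have hpi2 := Real.pi_lt_d2
      have hpi3 := Real.pi_pos
      have h5 : 2 * Real.pi * ‖s‖ ≤ 6.3 * ((m : ℝ) / 256) := by
        have := norm_nonneg s
        nlinarith
      linarith)
  have hTU : ∀ s ∈ ball (0 : ℂ) ((m : ℝ) / 256), T s ∈ U := by
    intro s hs
    show T s ∈ ball c (m : ℝ)
    rw [mem_ball, dist_eq_norm]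
    have := (hT s hs).1
    linarith
  refine ⟨fun s => P (T s), ?_, ?_, ?_, ?_⟩
  · intro i
    exact (hPd i).comp hTd hTU
  · intro s hs
    exact hqP _ (hTU s hs)
  · intro s hs
    exact hrg _ (hTU s hs)
  · intro s hs
    show Complex.exp (T s) = Complex.exp (2 * Real.pi * Complex.I * s) * q (T s) k1
    have h1 := (hT s hs).2
    simp only [hΛ] at h1
    rw [h1, Complex.exp_add, Complex.exp_add, ← h1, hexpl _ (hTU s hs)]
    have h2 : Complex.exp c = 1 := by
      have h : c = ((m : ℕ) : ℤ) * (2 * Real.pi * Complex.I) := by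
        simp only [hc]; push_cast; ring
      rw [h, Complex.exp_int_mul_two_pi_mul_I]
    rw [h2, one_mul]

end Pool.Agent.Helper57.CD
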