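import Pool.Agent.Helper57.CD.Size
import Pool.Agent.Helper57.CD.Fwd

/-!
Project NT (helper57): the functions `x_2 - log A` along the leaves over a curve have no integral
values (multiples of `2 π i`) on long arithmetic progressions.
-/

set_option autoImplicit false

namespace Pool.Agent.Helper57.CD

open MvPolynomial Filter Topology Metric Pool.Agent.Q72.EG Pool.Agent.Helper57.NT

/-- Cauchy estimates for a sequence of derivatives -/
theorem cauchy_seq (n : ℕ) : ∃ c : ℝ, 0 < c ∧ ∀ (R K : ℝ) (h : ℕ → ℂ → ℂ), 0 < R → 0 ≤ K →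
    (∀ k ≤ n, ∀ s ∈ ball (0 : ℂ) R, HasDerivAt (h k) (h (k + 1) s) s) →
    (∀ s ∈ ball (0 : ℂ) R, ‖h 0 s‖ ≤ K) →
    ∀ s ∈ ball (0 : ℂ) (R / 2 ^ n), ‖h n s‖ ≤ c * K / R ^ n := by
  induction n with
  | zero =>
    refine ⟨1, one_pos, fun R K h hR hK _ h2 s hs => ?_⟩
    rw [pow_zero, div_one] at hs
    rw [pow_zero, div_one, one_mul]
    exact h2 s hs
  | succ n ih =>
    obtain ⟨c, hc, ih⟩ := ih
    refine ⟨c * 2 ^ (n + 2), by positivity, fun R K h hR hK h1 h2 s hs => ?_⟩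
    have h3 := ih R K h hR hK (fun k hk => h1 k (by omega)) h2
    set δ : ℝ := R / 2 ^ (n + 2) with hδ
    have hδp : 0 < δ := by positivity
    have hsub : closedBall s δ ⊆ ball (0 : ℂ) (R / 2 ^ n) := by
      intro y hy
      rw [mem_closedBall] at hy
      rw [mem_ball] at hs ⊢
      have e1 := dist_triangle y s 0
      have e2 : R / 2 ^ (n + 1) = 2 * δ := by rw [hδ]; field_simp; ring
      have e3 : R / 2 ^ n = 4 * δ := by rw [hδ]; field_simp; ring
      rw [e2] at hs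
      rw [e3]
      linarith
    have hR1 : R / 2 ^ n ≤ R := div_le_self hR.le (one_le_pow₀ (by norm_num))
    have hs' : s ∈ ball (0 : ℂ) R := ball_subset_ball hR1 (hsub (mem_closedBall_self hδp.le))
    have h4 := Complex.norm_deriv_le_of_forall_mem_sphere_norm_le (f := h n) (c := s) (R := δ)
      (C := c * K / R ^ n) hδp (by
        refine DifferentiableOn.diffContOnCl ?_
        rw [closure_ball _ hδp.ne']
        intro y hy
        exact (h1 n (by omega) y (ball_subset_ball hR1 (hsub hy))).differentiableAt.differentiableWithinAt)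
        (fun y hy => h3 y (hsub (sphere_subset_closedBall hy)))
    rw [(h1 n (by omega) s hs').deriv] at h4
    refine h4.trans (le_of_eq ?_)
    rw [hδ]
    field_simp
    ring

variable {E : Type} [Field E] [Algebra ℂ E] {ι : Type} [Fintype ι]
variable {ζ : Fin 1 → E} {f : ι → E} {k1 : ι} {p : ℕ → ℂ → Fin 1 ⊕ ι → ℂ}

theorem ww_ne (L : Lf0 ζ f k1 p) (i2 : ι) {j : ι} (hj : f j ≠ 0) (n : ℕ) :
    aeval (Sum.elim ζ f) (uw L i2 j n).2 ≠ 0 := by
  induction n with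
  | zero =>
    rw [uw, map_mul, aeval_X]
    exact mul_ne_zero L.hB hj
  | succ n ih =>
    rw [uw, map_mul, map_pow]
    exact mul_ne_zero L.hB (pow_ne_zero _ ih)

/-- the sequence of derivatives -/
theorem uw_deriv (hsize : S_size)
    (hf : ∀ k, IsAlgebraic (IntermediateField.adjoin ℂ (Set.range ζ)) (f k))
    (L : Lf0 ζ f k1 p) (i2 : ι) {j : ι} (hj : f j ≠ 0) (n : ℕ) :
    ∀ᶠ m : ℕ in atTop, ∀ s ∈ ball (0 : ℂ) ((m : ℝ) / 256),
      HasDerivAt (fun s => eval (p m s) (uw L i2 j n).1 / eval (p m s) (uw L i2 j n).2)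
        (eval (p m s) (uw L i2 j (n + 1)).1 / eval (p m s) (uw L i2 j (n + 1)).2) s := by
  obtain ⟨_, _, h1⟩ := hsize ζ f hf _ (ww_ne L i2 hj n)
  obtain ⟨_, _, h2⟩ := hsize ζ f hf _ L.hB
  filter_upwards [L.good, L.dif, h1, h2] with m hg hdif h1 h2 s hs
  have hw := (h1 _ (hg.pt s hs) (hg.rg s hs)).1
  have hB := (h2 _ (hg.pt s hs) (hg.rg s hs)).1
  have e1 := hasDeriv_eval (hdif s hs) (uw L i2 j n).1
  have e2 := hasDeriv_eval (hdif s hs) (uw L i2 j n).2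
  refine (e1.fun_div e2 hw).congr_deriv ?_
  rw [uw, map_sub, map_mul, map_mul, map_mul, map_pow]
  field_simp

/-- the sequence `φ, φ', φ'', ...` -/
theorem exists_phi (hsize : S_size)
    (hf : ∀ k, IsAlgebraic (IntermediateField.adjoin ℂ (Set.range ζ)) (f k))
    (L : Lf0 ζ f k1 p) (i2 : ι) {j : ι} (hj : f j ≠ 0) :
    ∀ᶠ m : ℕ in atTop, ∃ ℓ : ℂ → ℂ, (∀ s ∈ ball (0 : ℂ) ((m : ℝ) / 256),
      Complex.exp (ℓ s) = p m s (Sum.inr j)) ∧ ∀ s ∈ ball (0 : ℂ) ((m : ℝ) / 256),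
      HasDerivAt (fun s => p m s (Sum.inr i2) - ℓ s)
        (eval (p m s) (uw L i2 j 0).1 / eval (p m s) (uw L i2 j 0).2) s := by
  obtain ⟨_, _, h1⟩ := hsize ζ f hf (X (Sum.inr j)) (by rw [aeval_X]; exact hj)
  obtain ⟨_, _, h2⟩ := hsize ζ f hf _ L.hB
  filter_upwards [L.good, L.dif, h1, h2, eventually_gt_atTop 0] with m hg hdif h1 h2 hm
  have hm' : (0 : ℝ) < m := by exact_mod_cast hm
  have hne : ∀ s ∈ ball (0 : ℂ) ((m : ℝ) / 256), p m s (Sum.inr j) ≠ 0 := fun s hs => by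
    have := (h1 _ (hg.pt s hs) (hg.rg s hs)).1
    rwa [eval_X] at this
  obtain ⟨ℓ, hℓd, hℓ⟩ := Pool.Agent.Helper57.HT.log_conv isOpen_ball (convex_ball (0 : ℂ) _)
    ⟨0, mem_ball_self (by positivity)⟩ (hg.dif (Sum.inr j)) hne
  refine ⟨ℓ, hℓ, fun s hs => ?_⟩
  have hB := (h2 _ (hg.pt s hs) (hg.rg s hs)).1
  have hn : ball (0 : ℂ) ((m : ℝ) / 256) ∈ 𝓝 s := isOpen_ball.mem_nhds hs
  have hℓs := (hℓd.differentiableAt hn).hasDerivAt
  have e1 : deriv ℓ s = eval (p m s) (L.A (Sum.inr j)) / eval (p m s) L.B / p m s (Sum.inr j) := by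
    have e2 := hℓs.cexp
    have e3 : (fun s => Complex.exp (ℓ s)) =ᶠ[𝓝 s] fun s => p m s (Sum.inr j) := by
      filter_upwards [hn] with t ht using hℓ t ht
    have e4 := (e2.congr_of_eventuallyEq e3.symm).unique (hdif s hs (Sum.inr j))
    rw [hℓ s hs] at e4
    rw [eq_div_iff (hne s hs), ← e4]
    ring
  rw [e1] at hℓs
  refine ((hdif s hs (Sum.inr i2)).fun_sub hℓs).congr_deriv ?_
  have hj' := hne s hs
  rw [uw, map_sub, map_mul, map_mul, eval_X]
  field_simp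

/-- **no long progressions** -/
theorem no_ap_leaf (hsize : S_size)
    (hf : ∀ k, IsAlgebraic (IntermediateField.adjoin ℂ (Set.range ζ)) (f k))
    (L : Lf0 ζ f k1 p) (i2 : ι) {j : ι} (hj : f j ≠ 0)
    (hne : ∀ n, aeval (Sum.elim ζ f) (uw L i2 j n).1 ≠ 0) :
    ∃ N0 : ℕ, ∀ N ≥ N0, ∀ W : ℕ, ∀ᶠ m : ℕ in atTop, ∀ a d : ℕ, 0 < d → a + N * d ≤ W →
      ¬ ∀ i ≤ N, Complex.exp (p m ((a + i * d : ℕ) : ℂ) (Sum.inr i2)) =
        p m ((a + i * d : ℕ) : ℂ) (Sum.inr j) := by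
  classical
  -- the size of the first derivative
  have hsz : ∀ n, ∃ C : ℝ, 0 ≤ C ∧ ∀ᶠ m : ℕ in atTop, ∀ s ∈ ball (0 : ℂ) ((m : ℝ) / 256),
      eval (p m s) (uw L i2 j n).1 / eval (p m s) (uw L i2 j n).2 ≠ 0 ∧
      |Real.log ‖eval (p m s) (uw L i2 j n).1 / eval (p m s) (uw L i2 j n).2‖| ≤ C * Real.log m := by
    intro n
    obtain ⟨C1, hC1, h1⟩ := hsize ζ f hf _ (hne n)
    obtain ⟨C2, hC2, h2⟩ := hsize ζ f hf _ (ww_ne L i2 hj n)
    refine ⟨C1 + C2, by positivity, ?_⟩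
    filter_upwards [L.good, h1, h2] with m hg h1 h2 s hs
    obtain ⟨e1, e2⟩ := h1 _ (hg.pt s hs) (hg.rg s hs)
    obtain ⟨e3, e4⟩ := h2 _ (hg.pt s hs) (hg.rg s hs)
    refine ⟨div_ne_zero e1 e3, ?_⟩
    rw [norm_div, Real.log_div (norm_ne_zero_iff.2 e1) (norm_ne_zero_iff.2 e3), add_mul]
    exact (abs_sub _ _).trans (add_le_add e2 e4)
  obtain ⟨C0, hC0, hsz0⟩ := hsz 0
  obtain ⟨M, hM⟩ := exists_nat_ge C0
  refine ⟨M + 2, fun N hN W => ?_⟩
  obtain ⟨N', rfl⟩ : ∃ N', N = N' + 1 := ⟨N - 1, by omega⟩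
  obtain ⟨C1, hC1, hsz1⟩ := hsz N'
  obtain ⟨cc, hcc, hcau⟩ := cauchy_seq N'
  -- the derivatives
  have hder : ∀ᶠ m : ℕ in atTop, ∀ n ∈ Finset.range (N' + 1), ∀ s ∈ ball (0 : ℂ) ((m : ℝ) / 256),
      HasDerivAt (fun s => eval (p m s) (uw L i2 j n).1 / eval (p m s) (uw L i2 j n).2)
        (eval (p m s) (uw L i2 j (n + 1)).1 / eval (p m s) (uw L i2 j (n + 1)).2) s :=
    (Finset.eventually_all _).2 fun n _ => uw_deriv hsize hf L i2 hj n
  -- smallness
  have hW1 : ∀ᶠ m : ℕ in atTop, (W : ℝ) < (m : ℝ) / 256 / 2 ^ N' := by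
    have h1 : Tendsto (fun m : ℕ => (m : ℝ) / 256 / 2 ^ N') atTop atTop :=
      (tendsto_natCast_atTop_atTop.atTop_div_const (by norm_num)).atTop_div_const (by positivity)
    exact h1.eventually_gt_atTop _
  have hsm : ∀ᶠ m : ℕ in atTop, cc * (m : ℝ) ^ M / ((m : ℝ) / 256) ^ N' * (W : ℝ) ^ (N' + 1) < 2 := by
    have h1 : Tendsto (fun m : ℕ => cc * 256 ^ N' * (W : ℝ) ^ (N' + 1) / (m : ℝ)) atTop (𝓝 0) :=
      tendsto_const_nhds.div_atTop tendsto_natCast_atTop_atTop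
    filter_upwards [h1.eventually (gt_mem_nhds (show (0 : ℝ) < 2 by norm_num)), eventually_ge_atTop 1]
      with m hm hm1
    have hm' : (1 : ℝ) ≤ m := by exact_mod_cast hm1
    have hm0 : (0 : ℝ) < m := by linarith
    refine lt_of_le_of_lt ?_ hm
    have h2 : (m : ℝ) ^ M * m ≤ (m : ℝ) ^ N' := by
      rw [← pow_succ]
      exact pow_le_pow_right₀ hm' (by omega)
    rw [div_pow]
    rw [le_div_iff₀ hm0]
    have h3 : cc * (m : ℝ) ^ M / ((m : ℝ) ^ N' / 256 ^ N') * (W : ℝ) ^ (N' + 1) * m =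
        cc * 256 ^ N' * (W : ℝ) ^ (N' + 1) * ((m : ℝ) ^ M * m / (m : ℝ) ^ N') := by
      field_simp
    rw [h3]
    have h4 : (m : ℝ) ^ M * m / (m : ℝ) ^ N' ≤ 1 := by
      rw [div_le_one (by positivity)]; exact h2
    exact mul_le_of_le_one_right (by positivity) h4
  have hbc : ∀ᶠ m : ℕ in atTop, 16 * (C1 * Real.log m + 1) * (W * 256) + (W : ℝ) * 256 ≤ (m : ℝ) := by
    have := log_small (16 * C1 * (W * 256)) (16 * (W * 256) + W * 256) one_pos
    filter_upwards [this] with m hm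
    rw [one_mul] at hm
    linarith
  filter_upwards [L.good, hsz0, hsz1, hder, exists_phi hsize hf L i2 hj, hW1, hsm, hbc,
    eventually_ge_atTop 3] with m hg hsz0 hsz1 hder hphi hW1 hsm hbc hm3 a d hd haW hAP
  obtain ⟨ℓ, hℓ, hφ⟩ := hphi
  have hm' : (3 : ℝ) ≤ m := by exact_mod_cast hm3
  have hm0 : (0 : ℝ) < m := by linarith
  have hlog : 0 ≤ Real.log m := Real.log_nonneg (by linarith)
  set R : ℝ := (m : ℝ) / 256 with hR
  have hRp : 0 < R := by positivity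
  set g : ℕ → ℂ → ℂ := fun n s => eval (p m s) (uw L i2 j n).1 / eval (p m s) (uw L i2 j n).2 with hg'
  set h : ℕ → ℂ → ℂ := fun n => Nat.casesOn n (fun s => p m s (Sum.inr i2) - ℓ s) g with hh
  have hh0 : ∀ s, h 0 s = p m s (Sum.inr i2) - ℓ s := fun s => rfl
  have hhS : ∀ n s, h (n + 1) s = g n s := fun n s => rfl
  have hhd : ∀ n < N' + 1, ∀ s ∈ ball (0 : ℂ) R, HasDerivAt (h n) (h (n + 1) s) s := by
    intro n hn s hs
    rcases n with _ | n
    · exact hφ s hs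
    · exact hder n (Finset.mem_range.2 (by omega)) s hs
  have hRN : R / 2 ^ N' ≤ R := div_le_self hRp.le (one_le_pow₀ (by norm_num))
  have hWR : (W : ℝ) < R := hW1.trans_le hRN
  have h0R : (0 : ℂ) ∈ ball (0 : ℂ) R := mem_ball_self hRp
  have htm : ∀ t : ℝ, 0 ≤ t → t ≤ W → ‖(t : ℂ)‖ ≤ W := fun t h0 h1 => by
    rw [Complex.norm_real, Real.norm_eq_abs, abs_of_nonneg h0]; exact h1
  -- the logarithm of the derivative
  obtain ⟨lam, hlamd, hlam⟩ := Pool.Agent.Helper57.HT.log_conv (f := g N') isOpen_ball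
    (convex_ball (0 : ℂ) R) ⟨0, h0R⟩
    (fun s hs => (hder N' (Finset.mem_range.2 (by omega)) s hs).differentiableAt.differentiableWithinAt)
    (fun s hs => (hsz1 s hs).1)
  have hlamre : ∀ s ∈ ball (0 : ℂ) R, |(lam s).re| ≤ C1 * Real.log m + 1 := by
    intro s hs
    have e1 := (hsz1 s hs).2
    have e2 : ‖eval (p m s) (uw L i2 j N').1 / eval (p m s) (uw L i2 j N').2‖ = Real.exp (lam s).re := by
      rw [← Complex.norm_exp, hlam s hs]
    rw [e2, Real.log_exp] at e1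
    linarith
  have hclose : ∀ t : ℝ, 0 ≤ t → t ≤ W → ‖g N' t * (g N' 0)⁻¹ - 1‖ ≤ 1 / 2 := by
    intro t h0 h1
    have hB : 0 < C1 * Real.log m + 1 := by positivity
    set θ : ℝ := W / R with hθ
    have hθ0 : 0 ≤ θ := by positivity
    have hθ1 : 1 - θ = (R - W) / R := by rw [hθ]; field_simp
    have hθlt : θ < 1 := by rw [hθ, div_lt_one hRp]; exact hWR
    have e1 := bc_ball (g := lam) (c := 0) hRp hB hlamd hlamre (t := (t : ℂ)) hθlt (by
      rw [sub_zero, hθ, div_mul_cancel₀ _ hRp.ne']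
      exact htm t h0 h1)
    have e2 : 4 * (C1 * Real.log m + 1) * θ / (1 - θ) ≤ 1 / 4 := by
      rw [hθ1, hθ]
      have e3 : 0 < R - W := by linarith
      have e4 : 4 * (C1 * Real.log m + 1) * (W / R) / ((R - W) / R) =
          4 * (C1 * Real.log m + 1) * W / (R - W) := by field_simp
      rw [e4, div_le_iff₀ e3, hR]
      linarith
    have e3 : ‖lam t - lam 0‖ ≤ 1 / 4 := e1.trans e2
    have htR : (t : ℂ) ∈ ball (0 : ℂ) R := by
      rw [mem_ball_zero_iff]; exact (htm t h0 h1).trans_lt hWR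
    have e4 : g N' t * (g N' 0)⁻¹ = Complex.exp (lam t - lam 0) := by
      rw [Complex.exp_sub, hlam _ htR, hlam _ h0R, div_eq_mul_inv]
    rw [e4]
    have e5 := Complex.norm_exp_sub_one_le (x := lam t - lam 0) (by linarith)
    linarith
  refine no_ap (N := N' + 1) (ρ := R) (g := h) (W := W) hhd hWR ?_ (w := (g N' 0)⁻¹) ?_ hd haW ?_
  · intro t h0 h1
    rw [hhS]
    have e1 := hcau R ((m : ℝ) ^ M) g hRp (by positivity)
      (fun k hk s hs => hder k (Finset.mem_range.2 (by omega)) s hs) (by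
        intro s hs
        have e2 := (hsz0 s hs).2
        have e3 : g 0 s ≠ 0 := (hsz0 s hs).1
        rw [abs_le] at e2
        have e4 : Real.log ‖g 0 s‖ ≤ M * Real.log m :=
          e2.2.trans (mul_le_mul_of_nonneg_right hM hlog)
        rw [← Real.log_pow] at e4
        exact (Real.log_le_log_iff (norm_pos_iff.2 e3) (by positivity)).1 e4) (t : ℂ) (by
        rw [mem_ball_zero_iff]
        exact (htm t h0 h1).trans_lt hW1)
    calc ‖g N' t‖ * (W : ℝ) ^ (N' + 1) ≤ cc * (m : ℝ) ^ M / R ^ N' * (W : ℝ) ^ (N' + 1) := by gcongr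
      _ < 2 := hsm
  · intro t h0 h1
    rw [hhS]
    have e1 := hclose t h0 h1
    have e2 := Complex.abs_re_le_norm (g N' t * (g N' 0)⁻¹ - 1)
    rw [Complex.sub_re, Complex.one_re, abs_le] at e2
    linarith [e2.1]
  · intro i hi
    have hle : a + i * d ≤ W := (Nat.add_le_add_left (Nat.mul_le_mul_right d hi) a).trans haW
    have htR : ((a + i * d : ℕ) : ℂ) ∈ ball (0 : ℂ) R := by
      rw [mem_ball_zero_iff, Complex.norm_natCast]
      have : ((a + i * d : ℕ) : ℝ) ≤ W := by exact_mod_cast hle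
      linarith
    have e1 := hAP i hi
    rw [← hℓ _ htR, Complex.exp_eq_exp_iff_exists_int] at e1
    obtain ⟨n, hn⟩ := e1
    refine ⟨n, ?_⟩
    rw [hh0, hn]
    ring

end Pool.Agent.Helper57.CD
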