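import Pool.Agent.Helper57.CD.Field
import Pool.Agent.Helper57.CD.Phi
import Pool.Agent.Helper57.NT.Sheet2
import Pool.Agent.Helper57.NT.Onen

/-!
Project NT (helper57): density over a curve.
-/

set_option autoImplicit false

namespace Pool.Agent.Helper57.CD

open MvPolynomial Filter Topology Metric Pool.Agent.Q72.EG Pool.Agent.Helper57.NT

/-- images of algebraic elements -/
theorem alg_map {E F : Type} [Field E] [Algebra ℂ E] [Field F] [Algebra ℂ F] (φ : E →ₐ[ℂ] F)
    {S : Set E} {v : E} (hv : IsAlgebraic (IntermediateField.adjoin ℂ S) v) :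
    IsAlgebraic (IntermediateField.adjoin ℂ (φ '' S)) (φ v) := by
  have hle : ∀ t ∈ IntermediateField.adjoin ℂ S, φ t ∈ IntermediateField.adjoin ℂ (φ '' S) := by
    intro t ht
    rw [← IntermediateField.adjoin_map]
    exact ⟨t, ht, rfl⟩
  set ψ : IntermediateField.adjoin ℂ S →+* IntermediateField.adjoin ℂ (φ '' S) :=
    { toFun := fun t => ⟨φ t, hle t t.2⟩
      map_one' := Subtype.ext (map_one φ)
      map_mul' := fun a b => Subtype.ext (map_mul φ _ _)
      map_zero' := Subtype.ext (map_zero φ)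
      map_add' := fun a b => Subtype.ext (map_add φ _ _) } with hψ
  obtain ⟨Q, hQ0, hQ⟩ := hv
  refine ⟨Q.map ψ, (Polynomial.map_ne_zero_iff ψ.injective).2 hQ0, ?_⟩
  have h1 : (φ : E →+* F) (Polynomial.eval₂ (algebraMap (IntermediateField.adjoin ℂ S) E) v Q) = 0 := by
    rw [← Polynomial.aeval_def, hQ, map_zero]
  rw [Polynomial.hom_eval₂] at h1
  rw [Polynomial.aeval_def, Polynomial.eval₂_map]
  exact h1

/-- roots of polynomials with algebraic coefficients -/
theorem root_alg {F : Type} [Field F] [Algebra ℂ F] {S : Set F} {Q : Polynomial F} (hQ0 : Q ≠ 0)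
    (hQ : ∀ j, IsAlgebraic (IntermediateField.adjoin ℂ S) (Q.coeff j)) {r : F} (hr : Q.eval r = 0) :
    IsAlgebraic (IntermediateField.adjoin ℂ S) r := by
  set K := IntermediateField.adjoin ℂ S with hK
  set A : IntermediateField K F := algebraicClosure K F with hA
  have h1 : Q ∈ Polynomial.lifts (algebraMap A F) := by
    rw [Polynomial.lifts_iff_coeff_lifts]
    intro j
    exact ⟨⟨Q.coeff j, mem_algebraicClosure_iff.2 (hQ j)⟩, rfl⟩
  obtain ⟨Q', hQ'⟩ := (Polynomial.mem_lifts Q).1 h1
  have h2 : IsAlgebraic A r := by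
    refine ⟨Q', ?_, ?_⟩
    · rintro rfl; apply hQ0; rw [← hQ', Polynomial.map_zero]
    · rw [Polynomial.aeval_def, ← Polynomial.eval_map, hQ', hr]
  exact h2.restrictScalars K

/-- **density over a curve**, algebraically closed field -/
theorem cd_closed (ax : S_ax) {F : Type} [Field F] [Algebra ℂ F] [IsAlgClosed F] (u v w : F)
    (hu : Transcendental ℂ u) (hv : IsAlgebraic (IntermediateField.adjoin ℂ {u}) v)
    (hw : IsAlgebraic (IntermediateField.adjoin ℂ {u}) w) (hwc : ∀ c : ℂ, w ≠ algebraMap ℂ F c)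
    (hvc : ∀ (q : ℚ) (c : ℂ), v ≠ algebraMap ℂ F q * u + algebraMap ℂ F c)
    (H : Polynomial (MvPolynomial (Fin 3) ℂ)) (hH : ∃ j, aeval ![u, v, w] (H.coeff j) ≠ 0) :
    ∃ P ∈ Pt ![u, v, w], Complex.exp (P 0) = P 2 ∧
      (H.map (eval P)).eval (Complex.exp (P 1)) ≠ 0 := by
  classical
  by_contra hcon
  push Not at hcon
  have hw0 : w ≠ 0 := fun h => hwc 0 (by rw [h, map_zero])
  set φ : MvPolynomial (Fin 3) ℂ →+* F := (aeval ![u, v, w] : MvPolynomial (Fin 3) ℂ →ₐ[ℂ] F).toRingHom
    with hφ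
  set HF : Polynomial F := H.map φ with hHF
  have hHF0 : HF ≠ 0 := by
    intro h
    obtain ⟨j, hj⟩ := hH
    apply hj
    have := congrArg (fun q => Polynomial.coeff q j) h
    simpa [hHF, hφ] using this
  set R0 : Finset F := HF.roots.toFinset.erase 0 with hR0
  set ι := Fin 2 ⊕ R0 with hι
  set ζ : Fin 1 → F := ![u] with hζ
  set f : ι → F := Sum.elim ![v, w] (fun r => (r : F)) with hf'
  set ξ : Fin 1 ⊕ ι → F := Sum.elim ζ f with hξ
  have hrange : Set.range ζ = {u} := by
    ext t
    simp [hζ]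
  have hind : ∀ g : MvPolynomial (Fin 1) ℂ, aeval ζ g = 0 → g = 0 := by
    intro g hg
    by_contra hg0
    apply hu
    refine ⟨aeval (fun _ : Fin 1 => (Polynomial.X : Polynomial ℂ)) g, ?_, ?_⟩
    · intro h
      apply hg0
      apply MvPolynomial.funext
      intro t
      rw [ev_fin1, h, Polynomial.eval_zero, map_zero]
    · have h1 : (Polynomial.aeval u : Polynomial ℂ →ₐ[ℂ] F).comp
          (aeval (fun _ : Fin 1 => (Polynomial.X : Polynomial ℂ))) = aeval ζ := by
        ext i
        have : i = 0 := Subsingleton.elim _ _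
        subst this
        simp [hζ]
      rw [← AlgHom.comp_apply, h1, hg]
  have hcoef : ∀ g : MvPolynomial (Fin 3) ℂ,
      IsAlgebraic (IntermediateField.adjoin ℂ (Set.range ζ)) (aeval ![u, v, w] g) := by
    intro g
    refine Pool.Agent.Q239.EG.alg_aeval ζ _ (fun i => ?_) g
    fin_cases i
    · exact Pool.Agent.Q239.EG.alg_zeta ζ 0
    · show IsAlgebraic _ v
      rw [hrange]; exact hv
    · show IsAlgebraic _ w
      rw [hrange]; exact hw
  have hf : ∀ k, IsAlgebraic (IntermediateField.adjoin ℂ (Set.range ζ)) (f k) := by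
    rintro (k | k)
    · fin_cases k
      · show IsAlgebraic _ v
        rw [hrange]; exact hv
      · show IsAlgebraic _ w
        rw [hrange]; exact hw
    · have hk : (k : F) ∈ HF.roots.toFinset.erase 0 := k.2
      rw [Finset.mem_erase, Multiset.mem_toFinset, Polynomial.mem_roots hHF0] at hk
      refine root_alg hHF0 (fun j => ?_) hk.2
      rw [hHF, Polynomial.coeff_map]
      exact hcoef _
  have hf0 : ∀ r : R0, f (Sum.inr r) ≠ 0 := by
    intro r
    have hk : (r : F) ∈ HF.roots.toFinset.erase 0 := r.2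
    rw [Finset.mem_erase] at hk
    exact hk.1
  obtain ⟨p, ⟨L⟩⟩ := leaf ζ f hind hf (Sum.inl 1) hw0
  -- no progressions
  have hne : ∀ (r : R0) n, aeval ξ (uw L (Sum.inl 0) (Sum.inr r) n).1 ≠ 0 := by
    intro r n
    exact ax ζ f hind hf (Sum.inl 1) p L (Sum.inl 0) (Sum.inr r) (hf0 r) hwc hvc n
  choose N0 hN0 using fun r : R0 => no_ap_leaf size hf L (Sum.inl 0) (hf0 r) (hne r)
  set N : ℕ := ∑ r, N0 r with hN
  have hNle : ∀ r, N0 r ≤ N := fun r => Finset.single_le_sum (fun _ _ => Nat.zero_le _) (Finset.mem_univ r)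
  obtain ⟨W, hW⟩ := vdw_finite R0 N
  have hap := (Filter.eventually_all).2 fun r : R0 => hN0 r N (hNle r) W
  -- the splitting identity
  have hlc : aeval ![u, v, w] (H.coeff HF.natDegree) ≠ 0 := by
    have h1 : HF.coeff HF.natDegree ≠ 0 := Polynomial.leadingCoeff_ne_zero.2 hHF0
    rw [hHF, Polynomial.coeff_map] at h1
    exact h1
  set ρ : Fin 3 → Fin 1 ⊕ ι := ![Sum.inl 0, Sum.inr (Sum.inl 0), Sum.inr (Sum.inl 1)] with hρ
  have hξρ : ξ ∘ ρ = ![u, v, w] := by
    funext i
    fin_cases i <;> rfl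
  set lcp : MvPolynomial (Fin 1 ⊕ ι) ℂ := rename ρ (H.coeff HF.natDegree) with hlcp
  have hlcξ : aeval ξ lcp ≠ 0 := by
    rw [hlcp, aeval_rename, hξρ]; exact hlc
  set G : Polynomial (MvPolynomial (Fin 1 ⊕ ι) ℂ) := Polynomial.C lcp *
    (Polynomial.X ^ (HF.roots.count 0) *
      ∏ r : R0, (Polynomial.X - Polynomial.C (X (Sum.inr (Sum.inr r)))) ^ (HF.roots.count (r : F))) with hG
  have hGF : G.map (aeval ξ : MvPolynomial (Fin 1 ⊕ ι) ℂ →ₐ[ℂ] F).toRingHom = HF := by
    have hspl : HF = Polynomial.C HF.leadingCoeff * (HF.roots.map fun a => Polynomial.X - Polynomial.C a).prod := by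
      exact (IsAlgClosed.splits HF).eq_prod_roots
    have h2 : (HF.roots.map fun a => Polynomial.X - Polynomial.C a).prod =
        ∏ a ∈ insert 0 HF.roots.toFinset, (Polynomial.X - Polynomial.C a) ^ (HF.roots.count a) := by
      rw [Finset.prod_multiset_map_count]
      refine Finset.prod_subset (Finset.subset_insert _ _) fun a _ ha => ?_
      rw [Multiset.mem_toFinset] at ha
      rw [Multiset.count_eq_zero_of_notMem ha, pow_zero]
    have h3 : insert 0 HF.roots.toFinset = insert 0 R0 := by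
      rw [hR0]
      ext a
      by_cases h : a = 0
      · simp [h]
      · simp [h]
    conv_rhs => rw [hspl]
    rw [h2, h3, Finset.prod_insert (by rw [hR0]; exact Finset.notMem_erase _ _)]
    rw [hG, Polynomial.map_mul, Polynomial.map_mul, Polynomial.map_pow, Polynomial.map_X,
      Polynomial.map_C, Polynomial.map_prod, Polynomial.C_0, sub_zero]
    congr 1
    · congr 1
      show aeval ξ lcp = (H.map φ).coeff HF.natDegree
      rw [hlcp, aeval_rename, hξρ, Polynomial.coeff_map]
      rfl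
    · congr 1
      rw [← Finset.prod_attach R0, Finset.univ_eq_attach]
      refine Finset.prod_congr rfl fun r _ => ?_
      rw [Polynomial.map_pow, Polynomial.map_sub, Polynomial.map_X, Polynomial.map_C]
      congr 3
      show aeval ξ (X (Sum.inr (Sum.inr r))) = _
      rw [aeval_X]
      rfl
  -- values
  have hval : ∀ P ∈ Pt ξ, (H.map (eval (P ∘ ρ))) = G.map (eval P) := by
    intro P hP
    ext j
    rw [Polynomial.coeff_map, Polynomial.coeff_map]
    have h1 : aeval ξ (rename ρ (H.coeff j) - G.coeff j) = 0 := by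
      rw [map_sub, aeval_rename, hξρ]
      have h2 := congrArg (fun q => Polynomial.coeff q j) hGF
      simp only [Polynomial.coeff_map, hHF] at h2
      have h3 : aeval ξ (G.coeff j) = φ (H.coeff j) := h2
      rw [h3]
      exact sub_self _
    have h4 := hP _ h1
    rw [map_sub, eval_rename, sub_eq_zero] at h4
    exact h4
  obtain ⟨_, _, hlsz⟩ := size ζ f hf lcp hlcξ
  obtain ⟨m, hg, hap, hlsz, hmW⟩ := (L.good.and (hap.and (hlsz.and
    (tendsto_natCast_atTop_atTop.eventually_gt_atTop ((W : ℝ) * 256))))).exists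
  -- colours
  have hcol : ∀ s : ℕ, s ≤ W → ∃ r : R0, Complex.exp (p m (s : ℂ) (Sum.inr (Sum.inl 0))) =
      p m (s : ℂ) (Sum.inr (Sum.inr r)) := by
    intro s hs
    have hsR : (s : ℂ) ∈ ball (0 : ℂ) ((m : ℝ) / 256) := by
      rw [mem_ball_zero_iff, Complex.norm_natCast, lt_div_iff₀ (by norm_num)]
      have : (s : ℝ) ≤ W := by exact_mod_cast hs
      linarith
    set P := p m (s : ℂ) with hP
    have hPpt : P ∈ Pt ξ := hg.pt _ hsR
    have hPρ : P ∘ ρ ∈ Pt ![u, v, w] := by
      intro g hg0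
      have := hPpt (rename ρ g) (by rw [aeval_rename, hξρ]; exact hg0)
      rwa [eval_rename] at this
    have h1 := hcon (P ∘ ρ) hPρ (by
      have h2 := hg.ex _ hsR
      have h3 : Complex.exp (2 * Real.pi * Complex.I * (s : ℂ)) = 1 := by
        rw [mul_comm]
        exact_mod_cast Complex.exp_nat_mul_two_pi_mul_I s
      rw [h3, one_mul] at h2
      exact h2)
    rw [hval P hPpt, hG] at h1
    simp only [Polynomial.map_mul, Polynomial.map_pow, Polynomial.map_X, Polynomial.map_C,
      Polynomial.map_prod, Polynomial.map_sub, Polynomial.eval_mul, Polynomial.eval_pow,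
      Polynomial.eval_X, Polynomial.eval_C, Polynomial.eval_prod, Polynomial.eval_sub] at h1
    rcases mul_eq_zero.1 h1 with h1 | h1
    · exact absurd h1 (hlsz P hPpt (hg.rg _ hsR)).1
    rcases mul_eq_zero.1 h1 with h1 | h1
    · exact absurd h1 (pow_ne_zero _ (Complex.exp_ne_zero _))
    · rw [Finset.prod_eq_zero_iff] at h1
      obtain ⟨r, -, hr⟩ := h1
      refine ⟨r, ?_⟩
      by_contra hne
      refine pow_ne_zero _ ?_ hr
      rw [sub_ne_zero, eval_X]
      exact hne
  obtain ⟨r0, -⟩ := hcol 0 (Nat.zero_le _)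
  set Cl : ℕ → R0 := fun s => if h : s ≤ W then (hcol s h).choose else r0 with hCl
  obtain ⟨a, d, hd, haW, r, hr⟩ := hW Cl
  refine hap r a d hd haW fun i hi => ?_
  have hle : a + i * d ≤ W := (Nat.add_le_add_left (Nat.mul_le_mul_right d hi) a).trans haW
  have h1 := hr i hi
  rw [hCl] at h1
  simp only [hle, dif_pos] at h1
  have h2 := (hcol (a + i * d) hle).choose_spec
  rw [h1] at h2
  exact h2

/-- **density over a curve** -/
theorem cd (ax : S_ax) : S_cd := by
  intro E _ _ u v w hu hv hw hwc hvc H hH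
  set φ : E →ₐ[ℂ] AlgebraicClosure E := IsScalarTower.toAlgHom ℂ E (AlgebraicClosure E) with hφ
  have hinj : Function.Injective φ := φ.toRingHom.injective
  have haev : ∀ g : MvPolynomial (Fin 3) ℂ,
      aeval ![φ u, φ v, φ w] g = φ (aeval ![u, v, w] g) := by
    intro g
    have h1 : φ.comp (aeval ![u, v, w]) = aeval ![φ u, φ v, φ w] := by
      ext i
      fin_cases i <;> simp
    rw [← h1]
    rfl
  have himg : φ '' {u} = {φ u} := Set.image_singleton
  obtain ⟨P, hP, h1, h2⟩ := cd_closed ax (φ u) (φ v) (φ w)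
    (fun h => hu ((isAlgebraic_algHom_iff φ hinj).1 h))
    (by rw [← himg]; exact alg_map φ hv) (by rw [← himg]; exact alg_map φ hw)
    (fun c h => hwc c (hinj (by rw [h, AlgHom.commutes])))
    (fun q c h => hvc q c (hinj (by rw [h, map_add, map_mul, AlgHom.commutes, AlgHom.commutes])))
    H (by
      obtain ⟨j, hj⟩ := hH
      refine ⟨j, ?_⟩
      rw [haev]
      exact fun h => hj (hinj (by rw [h, map_zero])))
  exact ⟨P, fun g hg => hP g (by rw [haev, hg, map_zero]), h1, h2⟩

end Pool.Agent.Helper57.CD
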