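import Pool.Agent.Helper57.CD.Def

/-!
Project NT (helper57): sizes over a curve.
-/

set_option autoImplicit false

namespace Pool.Agent.Helper57.CD

open MvPolynomial Filter Topology Metric Pool.Agent.Q72.EG Pool.Agent.Helper57.NT

theorem rg_bounds {m : ℕ} {t : Fin 1 → ℂ} (h : Rg m t) : (m : ℝ) ≤ ‖t 0‖ ∧ ‖t 0‖ ≤ 8 * (m : ℝ) := by
  unfold Rg at h
  rw [mem_ball, dist_eq_norm] at h
  have hn : ‖(2 * Real.pi * Complex.I * (m : ℂ) : ℂ)‖ = 2 * Real.pi * (m : ℝ) := by
    simp only [norm_mul, Complex.norm_I, Complex.norm_natCast, Complex.norm_real,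
      Real.norm_eq_abs, Complex.norm_ofNat]
    rw [abs_of_pos Real.pi_pos]
    ring
  have h3 := norm_sub_norm_le (2 * Real.pi * Complex.I * (m : ℂ) : ℂ) (t 0)
  have h4 := norm_sub_norm_le (t 0) (2 * Real.pi * Complex.I * (m : ℂ) : ℂ)
  rw [norm_sub_rev] at h3
  have hpi := Real.pi_gt_three
  have hpi2 := Real.pi_lt_d2
  have hm : (0 : ℝ) ≤ (m : ℝ) := by positivity
  constructor
  · nlinarith
  · nlinarith

/-- `log m / m → 0` -/
theorem log_small (C W : ℝ) {ε : ℝ} (hε : 0 < ε) : ∀ᶠ m : ℕ in atTop,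
    C * Real.log m + W ≤ ε * m := by
  have h1 : Tendsto (fun x : ℝ => Real.log x / x) atTop (𝓝 0) := by
    have := Real.isLittleO_log_id_atTop.tendsto_div_nhds_zero
    simpa using this
  have h2 : Tendsto (fun x : ℝ => C * (Real.log x / x) + W / x) atTop (𝓝 (C * 0 + 0)) :=
    (h1.const_mul C).add (tendsto_const_nhds.div_atTop tendsto_id)
  rw [mul_zero, add_zero] at h2
  have h3 := (h2.comp tendsto_natCast_atTop_atTop).eventually (gt_mem_nhds hε)
  filter_upwards [h3, eventually_gt_atTop 0] with m hm hm0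
  have hm' : (0 : ℝ) < m := by exact_mod_cast hm0
  simp only [Function.comp] at hm
  have : C * Real.log m + W = (C * (Real.log m / m) + W / m) * m := by field_simp
  rw [this]
  exact mul_le_mul_of_nonneg_right hm.le hm'.le

/-- sizes of polynomials in the region -/
theorem poly_reg {B : MvPolynomial (Fin 1) ℂ} (hB : B ≠ 0) : ∃ C : ℝ, 0 ≤ C ∧ ∀ᶠ m : ℕ in atTop,
    ∀ t, Rg m t → eval t B ≠ 0 ∧ |Real.log ‖eval t B‖| ≤ C * Real.log m := by
  classical
  obtain ⟨c, hc, T0, hT0⟩ := poly1_low hB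
  obtain ⟨N2, hN2⟩ := Pool.Agent.Helper57.RA.poly_size (σ := Fin 1) 2 B
  refine ⟨N2 + |Real.log c|, by positivity, ?_⟩
  have hT : ∀ᶠ m : ℕ in atTop, T0 ≤ (m : ℝ) := tendsto_natCast_atTop_atTop.eventually_ge_atTop T0
  filter_upwards [hT, eventually_ge_atTop 8] with m hT hm8 t ht
  have hm8' : (8 : ℝ) ≤ m := by exact_mod_cast hm8
  obtain ⟨b1, b2⟩ := rg_bounds ht
  have hup : ‖eval t B‖ ≤ (m : ℝ) ^ N2 := by
    refine hN2 _ (by linarith) t (fun i => ?_)
    have : i = 0 := Subsingleton.elim _ _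
    subst this
    nlinarith
  have hlow : c ≤ ‖eval t B‖ := hT0 t (hT.trans b1)
  have hpos : 0 < ‖eval t B‖ := hc.trans_le hlow
  have hlog1 : 1 ≤ Real.log m := by
    rw [Real.le_log_iff_exp_le (by linarith)]
    exact (Real.exp_one_lt_d9.le).trans (by linarith)
  refine ⟨norm_pos_iff.1 hpos, ?_⟩
  rw [abs_le]
  constructor
  · have h1 := Real.log_le_log hc hlow
    have h2 := neg_abs_le (Real.log c)
    have h3 : |Real.log c| ≤ |Real.log c| * Real.log m := le_mul_of_one_le_right (abs_nonneg _) hlog1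
    have h4 : (0 : ℝ) ≤ N2 * Real.log m := by positivity
    nlinarith
  · have h1 := Real.log_le_log hpos hup
    rw [Real.log_pow] at h1
    have h3 : 0 ≤ |Real.log c| * Real.log m := by positivity
    nlinarith

theorem size : S_size := by
  intro E _ _ ι ζ f hf a ha
  classical
  have halg : IsAlgebraic (IntermediateField.adjoin ℂ (Set.range ζ)) (aeval (Sum.elim ζ f) a) := by
    refine Pool.Agent.Q239.EG.alg_aeval ζ _ (fun i => ?_) a
    rcases i with i | i
    · exact Pool.Agent.Q239.EG.alg_zeta ζ i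
    · exact hf i
  obtain ⟨A, hA⟩ := Pool.Agent.Q166.EG.mn_alg halg
  set N := A.natDegree with hN
  have hne : ∀ j, Pool.Agent.Q166.EG.ph ζ (A.coeff j) ≠ 0 → A.coeff j ≠ 0 := by
    intro j h h0
    rw [h0, map_zero] at h
    exact h rfl
  have hC : ∀ j : ℕ, ∃ C : ℝ, 0 ≤ C ∧ ∀ᶠ m : ℕ in atTop, ∀ t, Rg m t → A.coeff j ≠ 0 →
      eval t (A.coeff j) ≠ 0 ∧ |Real.log ‖eval t (A.coeff j)‖| ≤ C * Real.log m := by
    intro j
    by_cases hj : A.coeff j = 0
    · exact ⟨0, le_refl _, Eventually.of_forall fun m t _ h => absurd hj h⟩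
    · obtain ⟨C, hC, h⟩ := poly_reg hj
      exact ⟨C, hC, h.mono fun m hm t ht _ => hm t ht⟩
  choose C hC0 hC using hC
  set CC : ℝ := ∑ j ∈ Finset.range (N + 1), C j with hCC
  have hCC0 : 0 ≤ CC := Finset.sum_nonneg fun j _ => hC0 j
  refine ⟨2 * CC + Real.log (N + 1), ?_, ?_⟩
  · have : 0 ≤ Real.log ((N : ℝ) + 1) := Real.log_nonneg (by linarith [(Nat.cast_nonneg N : (0 : ℝ) ≤ N)])
    positivity
  have hall : ∀ᶠ m : ℕ in atTop, ∀ j ∈ Finset.range (N + 1), ∀ t, Rg m t → A.coeff j ≠ 0 →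
      eval t (A.coeff j) ≠ 0 ∧ |Real.log ‖eval t (A.coeff j)‖| ≤ C j * Real.log m :=
    (Finset.eventually_all _).2 fun j _ => hC j
  filter_upwards [hall, eventually_ge_atTop 8] with m hall hm8 p hp hrg
  have hm8' : (8 : ℝ) ≤ m := by exact_mod_cast hm8
  have hlog1 : 1 ≤ Real.log m := by
    rw [Real.le_log_iff_exp_le (by linarith)]
    exact (Real.exp_one_lt_d9.le).trans (by linarith)
  have hrel : ∑ j ∈ Finset.range (N + 1), eval (p ∘ Sum.inl) (A.coeff j) * eval p a ^ j = 0 := by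
    have h1 := hp (∑ j ∈ Finset.range (N + 1), rename Sum.inl (A.coeff j) * a ^ j) (by
      rw [map_sum]
      have h2 := hA.rel
      rw [Pool.Agent.Q166.EG.ev, Polynomial.eval₂_eq_sum_range] at h2
      rw [← h2]
      refine Finset.sum_congr rfl fun j _ => ?_
      rw [map_mul, map_pow, aeval_rename]
      rfl)
    rw [map_sum] at h1
    rw [← h1]
    refine Finset.sum_congr rfl fun j _ => ?_
    rw [map_mul, map_pow, eval_rename]
  have h0 : A.coeff 0 ≠ 0 := hne 0 (hA.zero ha)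
  have hZ : eval p a ≠ 0 := by
    intro h
    rw [h, Finset.sum_range_succ'] at hrel
    simp only [pow_succ, mul_zero, Finset.sum_const_zero, zero_add, pow_zero, mul_one] at hrel
    exact (hall 0 (Finset.mem_range.2 (by omega)) _ hrg h0).1 hrel
  refine ⟨hZ, ?_⟩
  have h1 := Pool.Agent.Helper57.HT.root_size (N := N) hZ (B := CC * Real.log m) hrel
    ⟨0, Finset.mem_range.2 (by omega), (hall 0 (Finset.mem_range.2 (by omega)) _ hrg h0).1⟩
    (by
      intro b hb hb0
      have hb1 : A.coeff b ≠ 0 := by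
        intro h; apply hb0; rw [h, map_zero]
      refine (hall b hb _ hrg hb1).2.trans ?_
      gcongr
      exact Finset.single_le_sum (fun j _ => hC0 j) hb)
  refine h1.trans ?_
  have h2 : 0 ≤ Real.log ((N : ℝ) + 1) := Real.log_nonneg (by linarith [(Nat.cast_nonneg N : (0 : ℝ) ≤ N)])
  nlinarith

end Pool.Agent.Helper57.CD
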